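import Pool.Agent.MP42.O3.Unit

/-!
# The lines of gates are acyclic (owner helper50)
-/

set_option autoImplicit false
set_option linter.unusedSectionVars false

namespace Pool.Agent.MP42.O3.UM

variable {P : Type*} {U : UM P} [Finite P]

lemma bound (U : UM P) : ∃ H : ℕ, ∀ x, |U.y x| ≤ H := by
  classical
  have := Fintype.ofFinite P
  refine ⟨∑ x, (U.y x).natAbs, fun x => ?_⟩
  have h1 : (U.y x).natAbs ≤ ∑ x, (U.y x).natAbs :=
    Finset.single_le_sum (f := fun x => (U.y x).natAbs) (fun _ _ => Nat.zero_le _)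
      (Finset.mem_univ x)
  rw [Int.abs_eq_natAbs]
  exact_mod_cast h1

/-- one step -/
lemma step_line {x z : U.D} (hz : ¬ U.HR (U.E'.symm z))
    (hp : ∀ i < U.len (U.E'.symm z), U.n ((U.E ^ (i + 1)) (U.E'.symm z).1) ≠
      (U.E ^ (i + 1)) (U.E'.symm z).1)
    (hx : U.ps x.1 ≠ .r) (hne : U.ps (U.τ' z).1 ≠ U.ps x.1) (h : U.toBM.Aft x z) :
    U.σ z.1 = U.σ x.1 ∧
    ∃ k : ℕ, U.y z.1 = U.y x.1 + (if U.σ x.1 then ((k : ℤ) + 1) else -((k : ℤ) + 1)) := by
  set c := U.E'.symm z with hc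
  have hE : U.E' c = z := Equiv.apply_symm_apply _ _
  have hτ : (U.τ' z).1 = U.n c.1 := rfl
  obtain ⟨l1, l2⟩ := line hz hp
  rw [hE] at l1 l2
  have hcr : U.ps (U.E c.1) ≠ .r := by
    intro h1
    exact hz ⟨0, Nat.zero_le _, by rw [zero_add, pow_one]; exact h1⟩
  have hnr : U.ps (U.n c.1) ≠ .r := by
    intro h1
    have h2 : U.ps (U.τ (U.E c.1)) = .r := h1
    rw [U.un] at h2
    exact hcr (op_r.1 h2)
  have h0 : U.σ (U.n c.1) = !(U.σ (U.E c.1)) := (U.w1 _ hcr).1
  have hy : U.y c.1 = U.y (U.n c.1) := (U.w2 _).symm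
  have e : U.n c.1 = U.n x.1 ∨ U.n c.1 = U.n (U.n x.1) ∨ U.n c.1 = U.n (U.n (U.n x.1)) := by
    have hν : ∀ u : U.D, U.toBM.ν u = U.ν' u := fun u => τ'_E' u
    unfold BM.Aft at h
    have h' : U.toBM.τ z = U.τ' z := rfl
    rw [hν, hν, hν, h'] at h
    rcases h with h | h | h
    · left; exact congrArg Subtype.val h
    · right; left; exact congrArg Subtype.val h
    · right; right; exact congrArg Subtype.val h
  have key : U.σ (U.n c.1) = !(U.σ x.1) ∧ U.y (U.n c.1) = U.y x.1 := by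
    rw [hτ] at hne
    rcases e with e | e | e
    · rw [e] at hnr hne ⊢
      exact ⟨U.w3 _ hx hnr (fun h => hne (by unfold n; rw [h])), U.w2 _⟩
    · rw [e] at hnr hne ⊢
      exact ⟨U.w3' _ hx hnr (fun h => hne (by unfold n; rw [h])), by
        rw [show U.y (U.n (U.n x.1)) = U.y (U.n x.1) from U.w2 _]; exact U.w2 _⟩
    · rw [e] at hnr hne ⊢
      have h3 : U.n (U.n (U.n x.1)) ≠ x.1 := fun h => hne (by rw [h])
      rcases n4 x.2 with h4 | h4
      · exact absurd h4 h3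
      · refine ⟨?_, ?_⟩
        · have h5 := U.w3 (U.n (U.n (U.n x.1))) hnr
          have h6 : U.τ (U.E (U.n (U.n (U.n x.1)))) = x.1 := h4
          rw [h6] at h5
          have h7 := h5 hx (fun h => h3 h.symm)
          rw [h7, Bool.not_not]
        · rw [show U.y (U.n (U.n (U.n x.1))) = U.y (U.n (U.n x.1)) from U.w2 _,
            show U.y (U.n (U.n x.1)) = U.y (U.n x.1) from U.w2 _]
          exact U.w2 _
  have hs : U.σ (U.E c.1) = U.σ x.1 := by
    rw [key.1] at h0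
    exact (Bool.not_inj h0).symm
  rw [hs] at l1 l2
  exact ⟨l1, U.len c, by rw [l2, hy, key.2]⟩

lemma base_T {p q : Pos} (h : base p q = .T) : (p = .t ∧ q = .h) ∨ (p = .h ∧ q = .t) := by
  revert h; cases p <;> cases q <;> simp [base]

lemma base_a {p q : Pos} (h : base p q = .a) : (p = .t ∧ q = .z) ∨ (p = .z ∧ q = .t) := by
  revert h; cases p <;> cases q <;> simp [base]

lemma base_b {p q : Pos} (h : base p q = .b) : (p = .t ∧ q = .x) ∨ (p = .x ∧ q = .t) := by
  revert h; cases p <;> cases q <;> simp [base]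

lemma ek'_base {x : U.D} (h : U.ek' x ≠ .R) (h1 : U.ek' x ≠ .P) :
    U.ek' x = base (U.ps (U.τ' x).1) (U.ps x.1) := by
  unfold ek' at h h1 ⊢
  by_cases h2 : U.HR (U.E'.symm x)
  · rw [if_pos h2] at h; exact absurd rfl h
  · rw [if_neg h2] at h1 ⊢
    by_cases h3 : U.τ' x = x
    · rw [if_pos h3] at h1; exact absurd rfl h1
    · rw [if_neg h3]

lemma pos_eq (x : U.D) : U.toBM.pos x = U.ps x.1 := lab'_pos x

lemma UT_data {x : U.D} (h : U.toBM.UT x) : ¬ U.HR (U.E'.symm x) ∧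
    U.ps (U.τ' x).1 = .t ∧ (U.ps x.1 = .h ∨ U.ps x.1 = .x) := by
  unfold BM.UT at h
  rw [pos_eq] at h
  have e : U.toBM.ek x = U.ek' x := rfl
  rw [e] at h
  rcases h with ⟨h, h1⟩ | ⟨h, h1⟩
  · have h2 := ek'_base (x := x) (by rw [h]; decide) (by rw [h]; decide)
    rw [h] at h2
    refine ⟨ek'_T (by rw [h]; decide), ?_, Or.inl h1⟩
    rcases base_T h2.symm with h3 | h3
    · exact h3.1
    · rw [h1] at h3; exact absurd h3.2 (by decide)
  · have h2 := ek'_base (x := x) (by rw [h]; decide) (by rw [h]; decide)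
    rw [h] at h2
    refine ⟨ek'_T (by rw [h]; decide), ?_, Or.inr h1⟩
    rcases base_b h2.symm with h3 | h3
    · exact h3.1
    · rw [h1] at h3; exact absurd h3.2 (by decide)

lemma DT_data {x : U.D} (h : U.toBM.DT x) : ¬ U.HR (U.E'.symm x) ∧
    U.ps x.1 = .t ∧ (U.ps (U.τ' x).1 = .h ∨ U.ps (U.τ' x).1 = .z) := by
  unfold BM.DT at h
  have hp : U.toBM.pos (U.toBM.τ x) = U.ps (U.τ' x).1 := lab'_pos _
  rw [hp] at h
  have e : U.toBM.ek x = U.ek' x := rfl
  rw [e] at h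
  rcases h with ⟨h, h1⟩ | ⟨h, h1⟩
  · have h2 := ek'_base (x := x) (by rw [h]; decide) (by rw [h]; decide)
    rw [h] at h2
    refine ⟨ek'_T (by rw [h]; decide), ?_, Or.inl h1⟩
    rcases base_T h2.symm with h3 | h3
    · rw [h1] at h3; exact absurd h3.1 (by decide)
    · exact h3.2
  · have h2 := ek'_base (x := x) (by rw [h]; decide) (by rw [h]; decide)
    rw [h] at h2
    refine ⟨ek'_T (by rw [h]; decide), ?_, Or.inr h1⟩
    rcases base_a h2.symm with h3 | h3
    · rw [h1] at h3; exact absurd h3.1 (by decide)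
    · exact h3.2

/-- **acyclicity** -/
theorem rank (U : UM P) : ∃ ru rd : U.D → ℕ, U.toBM.Rank ru rd := by
  obtain ⟨H, hH⟩ := U.bound
  have hH' : ∀ x, -(H : ℤ) ≤ U.y x ∧ U.y x ≤ H := fun x => abs_le.1 (hH x)
  refine ⟨fun x => (if U.σ x.1 then (H : ℤ) - U.y x.1 else H + U.y x.1).toNat,
    fun x => (if U.σ x.1 then (H : ℤ) + U.y x.1 else H - U.y x.1).toNat, ?_, ?_⟩
  · intro x z hx hz hA
    obtain ⟨-, -, x3⟩ := UT_data hx
    obtain ⟨z1, z2, z3⟩ := UT_data hz
    have hE : U.E' (U.E'.symm z) = z := Equiv.apply_symm_apply _ _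
    have hp := no_pole z1 (by
      rw [hE]
      rcases z3 with z3 | z3
      · exact Or.inl ⟨z2, z3⟩
      · exact Or.inr (Or.inl ⟨z2, z3⟩))
    obtain ⟨h1, k, h2⟩ := step_line z1 hp (by rcases x3 with h | h <;> rw [h] <;> decide)
      (by rw [z2]; rcases x3 with h | h <;> rw [h] <;> decide) hA
    show (if U.σ z.1 then (H : ℤ) - U.y z.1 else H + U.y z.1).toNat <
      (if U.σ x.1 then (H : ℤ) - U.y x.1 else H + U.y x.1).toNat
    rw [h1]
    have a := hH' x.1
    have b := hH' z.1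
    by_cases hs : U.σ x.1 = true
    · rw [if_pos hs] at h2 ⊢
      rw [if_pos hs]
      omega
    · rw [if_neg hs] at h2 ⊢
      rw [if_neg hs]
      omega
  · intro x z hx hz hA
    obtain ⟨-, x2, -⟩ := DT_data hx
    obtain ⟨z1, z2, z3⟩ := DT_data hz
    have hp := no_pole z1 (by
      right; right
      intro h
      have h' : U.ps (U.τ' z).1 = .t := h
      rw [h'] at z3
      rcases z3 with z3 | z3 <;> exact absurd z3 (by decide))
    obtain ⟨h1, k, h2⟩ := step_line z1 hp (by rw [x2]; decide)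
      (by rw [x2]; rcases z3 with h | h <;> rw [h] <;> decide) hA
    show (if U.σ x.1 then (H : ℤ) + U.y x.1 else H - U.y x.1).toNat <
      (if U.σ z.1 then (H : ℤ) + U.y z.1 else H - U.y z.1).toNat
    rw [h1]
    have a := hH' x.1
    have b := hH' z.1
    by_cases hs : U.σ x.1 = true
    · rw [if_pos hs] at h2 ⊢
      rw [if_pos hs]
      omega
    · rw [if_neg hs] at h2 ⊢
      rw [if_neg hs]
      omega

end Pool.Agent.MP42.O3.UM
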