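import Pool.Agent.MP42.O3.Inv

/-!
# Every component has a dock (owner helper50)
-/

set_option autoImplicit false

namespace Pool.Agent.MP42.O3.BM

variable {D : Type*} {M : BM D} {W S cE used W' col : D → Prop}

/-- up edges without a real unit -/
def UT (M : BM D) (x : D) : Prop :=
  (M.ek x = .T ∧ M.pos x = .h) ∨ (M.ek x = .b ∧ M.pos x = .x)

/-- down edges without a real unit -/
def DT (M : BM D) (x : D) : Prop :=
  (M.ek x = .T ∧ M.pos (M.τ x) = .h) ∨ (M.ek x = .a ∧ M.pos (M.τ x) = .z)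

/-- `z` departs from the vertex where `x` arrives -/
def Aft (M : BM D) (x z : D) : Prop :=
  M.τ z = M.ν x ∨ M.τ z = M.ν (M.ν x) ∨ M.τ z = M.ν (M.ν (M.ν x))

/-- the lines of gates are acyclic -/
structure Rank (M : BM D) (ru rd : D → ℕ) : Prop where
  up : ∀ x z, M.UT x → M.UT z → M.Aft x z → ru z < ru x
  dn : ∀ x z, M.DT x → M.DT z → M.Aft x z → rd x < rd z

/-- A dock of the first kind; `x` is the corner `2`, in `W'`; `1` is the host.  Unused: all other
corners are reached, or the corner `3` is in `W'`, too (harmless dock). -/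
def Dock1 (M : BM D) (S cE used W' : D → Prop) (x : D) : Prop :=
  M.lab x = .B2 ∧ W' x ∧ S (M.μ x) ∧ cE (M.μ x) ∧
    ((¬ used x ∧ S (M.ν x) ∧ ¬ cE (M.ν x) ∧ S (M.ν (M.ν x)) ∧ cE (M.ν (M.ν x))) ∨
     (¬ used x ∧ W' (M.ν x) ∧ S (M.ν (M.ν x)) ∧ cE (M.ν (M.ν x))) ∨
     (used x ∧ ((S (M.ν x) ∧ ¬ cE (M.ν x)) ∨ (S (M.ν (M.ν x)) ∧ cE (M.ν (M.ν x))))))

/-- A dock of the second kind; `x` is the corner `2`, the host; `1` is in `W'`.  Unused: all other
corners are reached, or the corner `4` is in `W'`, too (harmless dock). -/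
def Dock2 (M : BM D) (S cE used W' : D → Prop) (x : D) : Prop :=
  M.lab x = .B2 ∧ W' (M.μ x) ∧ S x ∧ ¬ cE x ∧
    ((¬ used x ∧ S (M.ν x) ∧ ¬ cE (M.ν x) ∧ S (M.ν (M.ν x)) ∧ cE (M.ν (M.ν x))) ∨
     (¬ used x ∧ W' (M.ν (M.ν x)) ∧ S (M.ν x) ∧ ¬ cE (M.ν x)) ∨
     (used x ∧ ((S (M.ν x) ∧ ¬ cE (M.ν x)) ∨ (S (M.ν (M.ν x)) ∧ cE (M.ν (M.ν x))))))

/-- two corners of a vertex of valence three in `W`: the third, too -/
lemma third (hWE : ∀ x, W (M.E x) ↔ W x) (hI : M.Inv W col) {x : D}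
    (hb : (M.lab x).isB = false) (h1 : W x) (h2 : W (M.ν (M.ν x)))
    (h3 : M.pos (M.ν (M.ν x)) ≠ .h) (h4 : M.pos (M.ν (M.ν x)) ≠ .x)
    (h5 : M.pos (M.ν x) ≠ .h) (h6 : M.pos (M.ν x) ≠ .z) : W (M.ν x) := by
  by_contra h7
  have hb1 : (M.lab (M.ν x)).isB = false := by rw [isB_ν, hb]
  have hb2 : (M.lab (M.ν (M.ν x))).isB = false := by rw [isB_ν, hb1]
  have e3 : M.ν (M.ν (M.ν x)) = x := M.n3 x hb
  have hτ : ¬ W (M.τ (M.ν (M.ν x))) := by rw [← inv_μ hWE, μ_ν]; exact h7
  have h8 := hI.nx2 (M.ν (M.ν x)) h2 hτ (by rw [e3]; exact h1) (by rw [e3]; exact h7)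
  rw [e3] at h8
  have h9 : ¬ col (M.ν (M.ν x)) := by
    intro h
    rcases hI.up _ h2 hτ h with h | h | h
    · exact h3 h.2
    · exact h4 h.2
    · rw [h.2] at hb2; exact absurd hb2 (by decide)
  have h10 : ¬ col (M.E x) := fun h => h9 (h8.1 h)
  rcases hI.dn _ ((hWE x).2 h1) h7 h10 with h | h | h
  · exact h5 h.2
  · exact h6 h.2
  · have : M.lab (M.ν x) = .B2 := h.2
    rw [this] at hb1; exact absurd hb1 (by decide)

lemma prv_cases (hWE : ∀ x, W (M.E x) ↔ W x) {z : D} (h : M.Bd W z) :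
    (¬ W (M.μ (M.E.symm z)) ∧ M.prv W z = M.E.symm z) ∨
    (W (M.μ (M.E.symm z)) ∧ ¬ W (M.μ (M.μ (M.E.symm z))) ∧
      M.prv W z = M.μ (M.E.symm z)) ∨
    (W (M.μ (M.E.symm z)) ∧ W (M.μ (M.μ (M.E.symm z))) ∧
      ¬ W (M.μ (M.μ (M.μ (M.E.symm z)))) ∧ (M.lab (M.E.symm z)).isB = true ∧
      M.prv W z = M.μ (M.μ (M.E.symm z))) := by
  have h0 : ¬ W (M.ν (M.E.symm z)) := by rw [ν_Esymm]; exact h.2
  by_cases h1 : W (M.μ (M.E.symm z))
  · by_cases h2 : W (M.μ (M.μ (M.E.symm z)))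
    · right; right
      rcases hb : (M.lab (M.E.symm z)).isB with _ | _
      · exfalso
        have h3 : M.μ (M.μ (M.E.symm z)) = M.ν (M.E.symm z) := by
          have e : M.μ (M.E.symm z) = M.ν (M.ν (M.E.symm z)) := μ_3 hb
          rw [e, μ_ν]
        rw [h3] at h2
        exact h0 h2
      · have h3 : M.μ (M.μ (M.μ (M.E.symm z))) = M.ν (M.E.symm z) := by
          have e : M.μ (M.E.symm z) = M.ν (M.ν (M.ν (M.E.symm z))) := μ_4 hb
          rw [e, μ_ν, μ_ν]
        refine ⟨h1, h2, ?_, rfl, ?_⟩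
        · rw [h3]; exact h0
        · unfold prv; rw [if_pos h1, if_pos h2]
    · right; left
      exact ⟨h1, h2, by unfold prv; rw [if_pos h1, if_neg h2]⟩
  · left
    exact ⟨h1, by unfold prv; rw [if_neg h1]⟩

lemma prv_bd (hWE : ∀ x, W (M.E x) ↔ W x) {z : D} (h : M.Bd W z) : M.Bd W (M.prv W z) := by
  have h0 : W (M.E.symm z) := (Esymm hWE z).2 h.1
  rcases prv_cases hWE h with ⟨h1, e⟩ | ⟨h1, h2, e⟩ | ⟨h1, h2, h3, -, e⟩ <;> rw [e]
  · exact ⟨h0, by rw [← inv_μ hWE]; exact h1⟩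
  · exact ⟨h1, by rw [← inv_μ hWE]; exact h2⟩
  · exact ⟨h2, by rw [← inv_μ hWE]; exact h3⟩

lemma nxt_prv (hWE : ∀ x, W (M.E x) ↔ W x) {z : D} (h : M.Bd W z) :
    M.nxt W (M.prv W z) = z := by
  have h0 : ¬ W (M.ν (M.E.symm z)) := by rw [ν_Esymm]; exact h.2
  have h0' : W (M.E.symm z) := (Esymm hWE z).2 h.1
  rcases prv_cases hWE h with ⟨h1, e⟩ | ⟨h1, h2, e⟩ | ⟨h1, h2, h3, -, e⟩ <;> rw [e] <;> unfold nxt
  · rw [if_neg h0, Equiv.apply_symm_apply]
  · rw [ν_μ, if_pos h0', if_neg h0, Equiv.apply_symm_apply]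
  · rw [ν_μ, if_pos h1, ν_μ, if_pos h0', Equiv.apply_symm_apply]

/-- a real boundary edge with its other side in class `E` leads to a dock -/
lemma dock1_of (L : M.Lev W S cE used) (hu : ∀ x, used (M.ν x) ↔ used x) (hC : M.Comp W S W')
    (hI : M.Inv W col) {x : D} (hl : M.lab x = .B2) (h2 : W' x) (hS1 : S (M.μ x))
    (hc1 : cE (M.μ x)) : M.Dock1 S cE used W' x := by
  have F := four hl
  obtain ⟨hW3, hW4⟩ := hI.h1 x hl (hC.sub x h2) (L.SW _ hS1)
  have hn2 : ¬ S x := hC.nS x h2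
  refine ⟨hl, h2, hS1, hc1, ?_⟩
  by_cases hus : used x
  · right; right
    refine ⟨hus, ?_⟩
    rcases L.usedB x hl hus with a | a
    · rcases a with a | a | a | a
      · exact Or.inl ⟨a.2.2.1, a.2.2.2⟩
      · exact absurd a.1 hn2
      · exact Or.inr ⟨a.2.2.1, a.2.2.2⟩
      · exact absurd a.1 hn2
    · unfold Mpat at a
      rw [F.e3, F.e4, ← F.e1] at a
      rcases a with a | a | a | a
      · exact absurd hc1 a.2.2.2
      · exact absurd a.2.2.1 hn2
      · exact absurd a.2.2.1 hn2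
      · exact absurd hc1 a.2.2.2
  · obtain ⟨-, hS4⟩ := L.b1 x hl (hC.sub x h2) hW3 hW4 hus hS1 hc1
    have hu4 : ¬ used (M.ν (M.ν x)) := by rw [hu, hu]; exact hus
    have hc4 : cE (M.ν (M.ν x)) := by
      by_contra hc4
      rcases (L.b2 (M.ν (M.ν x)) F.l4 (by rw [F.e3]; exact hW3)
        (by rw [← F.e1]; exact L.SW _ hS1)
        (by rw [F.e4]; exact hC.sub _ h2) hu4 hS4 hc4).2 with h | h
      · rw [F.e4] at h
        exact hn2 h
      · have := h.1
        rw [← F.e1] at this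
        exact this hc1
    by_cases hW' : W' (M.ν x)
    · exact Or.inr (Or.inl ⟨hus, hW', hS4, hc4⟩)
    · have hS3 : S (M.ν x) := hC.out (x := M.E x) ((hC.WE x).2 h2) hW3 hW'
      refine Or.inl ⟨hus, hS3, ?_, hS4, hc4⟩
      intro hc3
      have := (L.b1 (M.ν (M.ν x)) F.l4 hW4 (by rw [← F.e1]; exact L.SW _ hS1)
        (by rw [F.e4]; exact hC.sub _ h2) hu4 (by rw [F.e3]; exact hS3)
        (by rw [F.e3]; exact hc3)).2
      rw [F.e4] at this
      exact hn2 this

/-- a real boundary edge with its other side in class `O` leads to a dock -/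
lemma dock2_of (L : M.Lev W S cE used) (hu : ∀ x, used (M.ν x) ↔ used x) (hC : M.Comp W S W')
    (hI : M.Inv W col) {x : D} (hl : M.lab x = .B2) (h1 : W' (M.μ x)) (hS2 : S x)
    (hc2 : ¬ cE x) : M.Dock2 S cE used W' x := by
  have F := four hl
  obtain ⟨hW3, hW4⟩ := hI.h1 x hl (L.SW x hS2) (hC.sub _ h1)
  have hn1 : ¬ S (M.μ x) := hC.nS _ h1
  refine ⟨hl, h1, hS2, hc2, ?_⟩
  by_cases hus : used x
  · right; right
    refine ⟨hus, ?_⟩
    rcases L.usedB x hl hus with a | a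
    · rcases a with a | a | a | a
      · exact absurd a.1 hn1
      · exact Or.inr ⟨a.2.2.1, a.2.2.2⟩
      · exact absurd a.1 hn1
      · exact Or.inl ⟨a.2.2.1, a.2.2.2⟩
    · unfold Mpat at a
      rw [F.e3, F.e4, ← F.e1] at a
      rcases a with a | a | a | a
      · exact absurd a.2.2.1 hn1
      · exact absurd a.2.2.2 hc2
      · exact absurd a.2.2.2 hc2
      · exact absurd a.2.2.1 hn1
  · obtain ⟨hS3, -⟩ := L.b2 x hl (hC.sub _ h1) hW3 hW4 hus hS2 hc2
    have hu4 : ¬ used (M.ν (M.ν x)) := by rw [hu, hu]; exact hus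
    have hc3 : ¬ cE (M.ν x) := by
      intro hc3
      rcases (L.b1 (M.ν (M.ν x)) F.l4 hW4 (by rw [← F.e1]; exact hC.sub _ h1)
        (by rw [F.e4]; exact L.SW _ hS2) hu4 (by rw [F.e3]; exact hS3)
        (by rw [F.e3]; exact hc3)).1 with h | h
      · rw [← F.e1] at h
        exact hn1 h
      · have := h.1
        rw [F.e4] at this
        exact hc2 this
    by_cases hW' : W' (M.ν (M.ν x))
    · exact Or.inr (Or.inl ⟨hus, hW', hS3, hc3⟩)
    · have hS4 : S (M.ν (M.ν x)) := by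
        have h5 : M.μ (M.μ x) = M.ν (M.ν x) := by rw [F.e1, μ_ν]
        have h6 := hC.out h1 (by rw [← inv_μ L.WE, h5]; exact hW4)
          (by rw [← inv_μ hC.WE, h5]; exact hW')
        rwa [← inv_μ L.SE, h5] at h6
      refine Or.inl ⟨hus, hS3, hc3, hS4, ?_⟩
      by_contra hc4
      have := (L.b2 (M.ν (M.ν x)) F.l4 (by rw [F.e3]; exact hW3) (by rw [← F.e1]; exact hC.sub _ h1)
        (by rw [F.e4]; exact L.SW _ hS2) hu4 hS4 hc4).1
      rw [← F.e1] at this
      exact hn1 this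

variable [Finite D]

lemma walk_up (L : M.Lev W S cE used) (hu : ∀ x, used (M.ν x) ↔ used x) (hC : M.Comp W S W')
    (hI : M.Inv W col) {ru rd : D → ℕ} (hR : M.Rank ru rd) : ∀ (n : ℕ) (x : D), ru x < n →
    M.Bd W' x → S (M.τ x) → M.Up W cE col x → ∃ y, M.Dock1 S cE used W' y := by
  intro n
  induction n with
  | zero => intro x hx; omega
  | succ n ih =>
    intro x hx hbd hS hup
    have hIU : M.IU cE x := by
      rcases hup with h | h
      · exact absurd (L.SW _ hS) h.1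
      · exact h.2
    by_cases hk : M.UT x
    · -- go on
      have hbn := nxt_bd hC.WE hbd
      have hun : M.Up W cE col (M.nxt W' x) := (up_iff L hC hI hbd).2 hup
      have hSμ : S (M.μ x) := (inv_μ L.SE x).2 hS
      have hb : (M.lab x).isB = false := by
        rcases hk with hk | hk
        · rcases lab_h hk.2 with h | h <;> rw [h] <;> rfl
        · rcases lab_x hk.2 with h | h <;> rw [h] <;> rfl
      have hm : M.μ x = M.ν (M.ν x) := μ_3 hb
      have hW1 : W (M.ν x) := by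
        have key : M.pos (M.ν (M.ν x)) ≠ .h ∧ M.pos (M.ν (M.ν x)) ≠ .x ∧
            M.pos (M.ν x) ≠ .h ∧ M.pos (M.ν x) ≠ .z := by
          unfold pos
          rw [lab_ν, lab_ν]
          rcases hk with hk | hk
          · rcases lab_h hk.2 with h | h <;> rw [h] <;> decide
          · rcases lab_x hk.2 with h | h <;> rw [h] <;> decide
        exact third L.WE hI hb (hC.sub x hbd.1) (by rw [← hm]; exact L.SW _ hSμ) key.1 key.2.1
          key.2.2.1 key.2.2.2
      have hfin : S (M.τ (M.nxt W' x)) ∧ M.Aft x (M.nxt W' x) := by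
        rcases nxt_cases hC.WE hbd with ⟨h4, e⟩ | ⟨h4, h5, e⟩ | ⟨-, -, -, h4, -⟩
        · rw [e]
          exact ⟨hC.out ((hC.WE x).2 hbd.1) hW1 h4, Or.inl rfl⟩
        · rw [e]
          refine ⟨?_, Or.inr (Or.inl rfl)⟩
          show S (M.ν (M.ν x))
          rw [← hm]; exact hSμ
        · rw [hb] at h4; exact absurd h4 (by decide)
      obtain ⟨hSn, hA⟩ := hfin
      by_cases hk' : M.UT (M.nxt W' x)
      · exact ih _ (by have := hR.up _ _ hk hk' hA; omega) hbn hSn hun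
      · -- the next edge is real
        have hIU' : M.IU cE (M.nxt W' x) := by
          rcases hun with h | h
          · exact absurd (L.SW _ hSn) h.1
          · exact h.2
        rcases hIU' with h | h | h
        · exact absurd (Or.inl h) hk'
        · exact absurd (Or.inr ⟨h.1, h.2.1⟩) hk'
        · exact ⟨_, dock1_of L hu hC hI h.2.1 hbn.1 ((inv_μ L.SE _).2 hSn)
            ((inv_μ L.cEE _).2 h.2.2)⟩
    · rcases hIU with h | h | h
      · exact absurd (Or.inl h) hk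
      · exact absurd (Or.inr ⟨h.1, h.2.1⟩) hk
      · exact ⟨_, dock1_of L hu hC hI h.2.1 hbd.1 ((inv_μ L.SE _).2 hS)
          ((inv_μ L.cEE _).2 h.2.2)⟩

lemma walk_dn (L : M.Lev W S cE used) (hu : ∀ x, used (M.ν x) ↔ used x) (hC : M.Comp W S W')
    (hI : M.Inv W col) {ru rd : D → ℕ} (hR : M.Rank ru rd) : ∀ (n : ℕ) (x : D), rd x < n →
    M.Bd W' x → S (M.τ x) → M.Dn W cE col x → ∃ y, M.Dock2 S cE used W' y := by
  intro n
  induction n with
  | zero => intro x hx; omega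
  | succ n ih =>
    intro x hx hbd hS hdn
    have hID : M.ID cE x := by
      rcases hdn with h | h
      · exact absurd (L.SW _ hS) h.1
      · exact h.2
    have hreal : ∀ z, M.Bd W' z → S (M.τ z) → M.lab (M.τ z) = .B2 → ¬ cE (M.τ z) →
        ∃ y, M.Dock2 S cE used W' y := by
      intro z hz h1 h2 h3
      refine ⟨M.τ z, dock2_of L hu hC hI h2 ?_ h1 h3⟩
      rw [← ν_Esymm, μ_ν]
      exact (Esymm hC.WE z).2 hz.1
    by_cases hk : M.DT x
    · set c := M.E.symm x with hcd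
      have hνc : M.ν c = M.τ x := ν_Esymm x
      have hbn := prv_bd hC.WE hbd
      have hdp : M.Dn W cE col (M.prv W' x) := by
        rcases up_or_dn (cE := cE) L hC hI hbn with h | h
        · exfalso
          have h2 := (up_iff L hC hI hbn).2 h
          rw [nxt_prv hC.WE hbd] at h2
          exact up_not_dn h2 hdn
        · exact h
      have hposτ : M.pos (M.ν c) = .h ∨ M.pos (M.ν c) = .z := by
        rw [hνc]
        rcases hk with hk | hk
        · exact Or.inl hk.2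
        · exact Or.inr hk.2
      have hbν : (M.lab (M.ν c)).isB = false := by
        rcases hposτ with h | h
        · rcases lab_h h with h | h <;> rw [h] <;> rfl
        · rcases lab_z h with h | h <;> rw [h] <;> rfl
      have hb : (M.lab c).isB = false := by rw [← isB_ν c]; exact hbν
      have hm : M.μ c = M.ν (M.ν c) := μ_3 hb
      have e3 : M.ν (M.ν (M.ν c)) = c := M.n3 c hb
      have hm2 : M.μ (M.μ c) = M.ν c := by rw [hm, μ_ν]
      have hc' : W' c := (Esymm hC.WE x).2 hbd.1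
      have hSν : S (M.ν c) := by rw [hνc]; exact hS
      have hW1 : W (M.μ c) := by
        rw [hm]
        have key : M.pos (M.ν (M.ν (M.ν c))) ≠ .h ∧ M.pos (M.ν (M.ν (M.ν c))) ≠ .x ∧
            M.pos (M.ν (M.ν c)) ≠ .h ∧ M.pos (M.ν (M.ν c)) ≠ .z := by
          unfold pos
          rw [lab_ν (M.ν (M.ν c)), lab_ν (M.ν c)]
          rcases hposτ with h | h
          · rcases lab_h h with h | h <;> rw [h] <;> decide
          · rcases lab_z h with h | h <;> rw [h] <;> decide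
        exact third L.WE hI hbν (L.SW _ hSν) (by rw [e3]; exact hC.sub _ hc') key.1 key.2.1
          key.2.2.1 key.2.2.2
      have hfin : S (M.τ (M.prv W' x)) ∧ M.Aft (M.prv W' x) x := by
        rcases prv_cases hC.WE hbd with ⟨h4, e⟩ | ⟨h4, h5, e⟩ | ⟨-, -, -, h4, -⟩
        · rw [e]
          refine ⟨?_, Or.inl hνc.symm⟩
          refine hC.out hc' ?_ ?_
          · rw [← inv_μ L.WE]; exact hW1
          · rw [← inv_μ hC.WE]; exact h4
        · rw [e]
          refine ⟨?_, Or.inr (Or.inl ?_)⟩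
          · rw [← inv_μ L.SE, hm2]; exact hSν
          · show M.τ x = M.ν (M.ν (M.μ c))
            rw [ν_μ, hνc]
        · rw [hb] at h4; exact absurd h4 (by decide)
      obtain ⟨hSn, hA⟩ := hfin
      have hID' : M.ID cE (M.prv W' x) := by
        rcases hdp with h | h
        · exact absurd (L.SW _ hSn) h.1
        · exact h.2
      by_cases hk' : M.DT (M.prv W' x)
      · exact ih _ (by have := hR.dn _ _ hk' hk hA; omega) hbn hSn hdp
      · rcases hID' with h | h | h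
        · exact absurd (Or.inl h) hk'
        · exact absurd (Or.inr ⟨h.1, h.2.1⟩) hk'
        · exact hreal _ hbn hSn h.2.1 h.2.2
    · rcases hID with h | h | h
      · exact absurd (Or.inl h) hk
      · exact absurd (Or.inr ⟨h.1, h.2.1⟩) hk
      · exact hreal _ hbd hS h.2.1 h.2.2

/-- **every component of the missing faces has a dock** -/
theorem exists_dock (L : M.Lev W S cE used) (hu : ∀ x, used (M.ν x) ↔ used x)
    (hC : M.Comp W S W') (hI : M.Inv W col) {ru rd : D → ℕ} (hR : M.Rank ru rd) {x : D}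
    (hx : W' x) (hS : S (M.τ x)) :
    (∃ y, M.Dock1 S cE used W' y) ∨ ∃ y, M.Dock2 S cE used W' y := by
  have hbd : M.Bd W' x := ⟨hx, fun h => hC.nS _ h hS⟩
  rcases up_or_dn (cE := cE) L hC hI hbd with h | h
  · exact Or.inl (walk_up L hu hC hI hR _ x (Nat.lt_succ_self _) hbd hS h)
  · exact Or.inr (walk_dn L hu hC hI hR _ x (Nat.lt_succ_self _) hbd hS h)

end Pool.Agent.MP42.O3.BM
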