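import Pool.Agent.MP42.O3.Step

/-!
# Components have homogeneous boundaries (owner helper50)
-/

set_option autoImplicit false

namespace Pool.Agent.MP42.O3.BM

variable {D : Type*} {M : BM D} {W S cE used W' col : D → Prop}

/-- corners of a vertex of valence four -/
structure Four (M : BM D) (x : D) : Prop where
  l2 : M.lab x = .B2
  l3 : M.lab (M.ν x) = .B3
  l4 : M.lab (M.ν (M.ν x)) = .B2
  l1 : M.lab (M.μ x) = .B3
  e4 : M.ν (M.ν (M.ν (M.ν x))) = x
  e1 : M.μ x = M.ν (M.ν (M.ν x))
  e3 : M.μ (M.ν (M.ν x)) = M.ν x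

lemma four {x : D} (h : M.lab x = .B2) : M.Four x := by
  have hb : (M.lab x).isB = true := by rw [h]; rfl
  have h3 : M.lab (M.ν x) = .B3 := by rw [lab_ν, h]; rfl
  have h4 : M.lab (M.ν (M.ν x)) = .B2 := by rw [lab_ν, h3]; rfl
  have h1 : M.lab (M.ν (M.ν (M.ν x))) = .B3 := by rw [lab_ν, h4]; rfl
  exact ⟨h, h3, h4, by rw [μ_4 hb]; exact h1, M.n4 x hb, μ_4 hb, μ_ν _⟩

/-- a vertex of valence four with only one reached corner is not used -/
lemma unused_B (L : M.Lev W S cE used) {x : D} (F : M.Four x) (h2 : ¬ S x)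
    (h1 : ¬ S (M.μ x)) : ¬ used x := by
  intro hu
  rcases L.usedB x F.l2 hu with a | a
  · rcases a with a | a | a | a
    · exact h1 a.1
    · exact h2 a.1
    · exact h1 a.1
    · exact h2 a.1
  · unfold Mpat at a
    rw [F.e3, F.e4, ← F.e1] at a
    rcases a with a | a | a | a
    · exact h1 a.2.2.1
    · exact h2 a.2.2.1
    · exact h2 a.2.2.1
    · exact h1 a.2.2.1

variable [Finite D]

/-- two neighbouring corners across a real end -/
theorem h1_comp (L : M.Lev W S cE used) (hu : ∀ x, used (M.ν x) ↔ used x) (hC : M.Comp W S W')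
    (hI : M.Inv W col) {x : D} (hl : M.lab x = .B2) (h2 : W' x) (h1 : W' (M.μ x)) :
    W' (M.ν x) ∧ W' (M.ν (M.ν x)) := by
  have F := four hl
  obtain ⟨hW3, hW4⟩ := hI.h1 x hl (hC.sub x h2) (hC.sub _ h1)
  have hp3 : M.pos (M.ν x) = .t := by unfold pos; rw [F.l3]; rfl
  have hp1 : M.pos (M.μ x) = .t := by unfold pos; rw [F.l1]; rfl
  by_cases h3 : W' (M.ν x)
  · by_cases h4 : W' (M.ν (M.ν x))
    · exact ⟨h3, h4⟩
    · -- the corner `4` is missing
      exfalso
      have hbd1 : M.Bd W' (M.μ x) := by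
        refine ⟨h1, ?_⟩
        rw [← inv_μ hC.WE]
        have : M.μ (M.μ x) = M.ν (M.ν x) := by rw [F.e1, μ_ν]
        rw [this]; exact h4
      have hd : M.Dn W cE col (M.μ x) := dn_of_arr L hC hI hbd1 (Or.inl hp1)
      have hn : M.nxt W' (M.μ x) = M.E (M.ν x) := by
        unfold nxt
        rw [ν_μ, if_pos h2, if_pos h3]
      have hbn : M.Bd W' (M.E (M.ν x)) := by rw [← hn]; exact nxt_bd hC.WE hbd1
      have e : M.τ (M.E (M.ν x)) = M.ν (M.ν x) := rfl
      have hS4 : S (M.ν (M.ν x)) := by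
        rcases hC.bd hbn with h | h
        · exact absurd hW4 h
        · exact h
      have hn1 : ¬ S (M.μ x) := hC.nS _ h1
      have hn3 : ¬ S (M.ν x) := hC.nS _ h3
      have hn2 : ¬ S x := hC.nS _ h2
      have hnu : ¬ used (M.ν (M.ν x)) := by
        rw [hu, hu]
        exact unused_B L F hn2 hn1
      by_cases hc4 : cE (M.ν (M.ν x))
      · have h5 : M.Up W cE col (M.E (M.ν x)) := by
          rcases up_or_dn (cE := cE) L hC hI hbn with h | h
          · exact h
          · exfalso
            rcases h with h | ⟨-, h⟩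
            · exact h.1 hW4
            · have hp4 : M.pos (M.ν (M.ν x)) = .r := by unfold pos; rw [F.l4]; rfl
              rcases h with h | h | h
              · rw [e, hp4] at h; exact absurd h.2 (by decide)
              · rw [e, hp4] at h; exact absurd h.2.1 (by decide)
              · exact h.2.2 hc4
        rw [← hn] at h5
        exact up_not_dn ((up_iff L hC hI hbd1).1 h5) hd
      · have := (L.b2 (M.ν (M.ν x)) F.l4 (by rw [F.e3]; exact hW3) (by rw [← F.e1]; exact hC.sub _ h1)
          (by rw [F.e4]; exact hC.sub _ h2) hnu hS4 hc4).1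
        rw [← F.e1] at this
        exact hn1 this
  · exfalso
    have hn1 : ¬ S (M.μ x) := hC.nS _ h1
    have hn2 : ¬ S x := hC.nS _ h2
    have hS3 : S (M.ν x) := by
      have hE : W' (M.E x) := (hC.WE x).2 h2
      exact hC.out hE hW3 h3
    -- the departure after `2`
    have hbdE : M.Bd W' (M.E x) := ⟨(hC.WE x).2 h2, h3⟩
    have hup : M.Up W cE col (M.E x) := up_of_dep L hC hI hbdE (Or.inl hp3)
    by_cases h4 : W' (M.ν (M.ν x))
    · -- run `4, 1, 2`
      have hn4 : ¬ S (M.ν (M.ν x)) := hC.nS _ h4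
      have hbd4 : M.Bd W' (M.ν (M.ν x)) := by
        refine ⟨h4, ?_⟩
        rw [← inv_μ hC.WE, F.e3]; exact h3
      have hn : M.nxt W' (M.ν (M.ν x)) = M.E x := by
        unfold nxt
        rw [← F.e1, if_pos h1, ν_μ, if_pos h2]
      by_cases hc3 : cE (M.ν x)
      · have hnu : ¬ used x := unused_B L F hn2 hn1
        have := (L.b1 (M.ν (M.ν x)) F.l4 hW4 (by rw [← F.e1]; exact hC.sub _ h1)
          (by rw [F.e4]; exact hC.sub _ h2) (by rw [hu, hu]; exact hnu) (by rw [F.e3]; exact hS3)
          (by rw [F.e3]; exact hc3)).2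
        rw [F.e4] at this
        exact hn2 this
      · have hd : M.Dn W cE col (M.ν (M.ν x)) := by
          rcases up_or_dn (cE := cE) L hC hI hbd4 with h | h
          · exfalso
            have hτ : W (M.τ (M.ν (M.ν x))) := by rw [← inv_μ L.WE, F.e3]; exact hW3
            have hcτ : ¬ cE (M.τ (M.ν (M.ν x))) := by rw [← inv_μ L.cEE, F.e3]; exact hc3
            rcases h with h | ⟨-, h⟩
            · exact h.1 hτ
            · have hp4 : M.pos (M.ν (M.ν x)) = .r := by unfold pos; rw [F.l4]; rfl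
              rcases h with h | h | h
              · rw [hp4] at h; exact absurd h.2 (by decide)
              · rw [hp4] at h; exact absurd h.2.1 (by decide)
              · exact hcτ h.2.2
          · exact h
        rw [← hn] at hup
        exact up_not_dn ((up_iff L hC hI hbd4).1 hup) hd
    · -- run `1, 2`
      have hbd1 : M.Bd W' (M.μ x) := by
        refine ⟨h1, ?_⟩
        rw [← inv_μ hC.WE]
        have : M.μ (M.μ x) = M.ν (M.ν x) := by rw [F.e1, μ_ν]
        rw [this]; exact h4
      have hd : M.Dn W cE col (M.μ x) := dn_of_arr L hC hI hbd1 (Or.inl hp1)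
      have hn : M.nxt W' (M.μ x) = M.E x := by
        unfold nxt
        rw [ν_μ, if_pos h2, if_neg h3]
      rw [← hn] at hup
      exact up_not_dn ((up_iff L hC hI hbd1).1 hup) hd

/-- **the components of the missing faces have homogeneous boundaries** -/
theorem inv_comp (L : M.Lev W S cE used) (hu : ∀ x, used (M.ν x) ↔ used x)
    (hC : M.Comp W S W') (hI : M.Inv W col) : M.Inv W' (M.Up W cE col) where
  up x h1 h2 h3 := h3.upE hC hI ⟨h1, h2⟩
  dn x h1 h2 h3 := by
    rcases up_or_dn (cE := cE) L hC hI ⟨h1, h2⟩ with h | h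
    · exact absurd h h3
    · exact h.dnE hC hI ⟨h1, h2⟩
  nx1 x h1 h2 h3 := by
    have := up_iff (cE := cE) L hC hI ⟨h1, h2⟩
    unfold nxt at this
    rwa [if_neg h3] at this
  nx2 x h1 h2 h3 h4 := by
    have := up_iff (cE := cE) L hC hI ⟨h1, h2⟩
    unfold nxt at this
    rwa [if_pos h3, if_neg h4] at this
  nx3 x h1 h2 h3 h4 _ := by
    have := up_iff (cE := cE) L hC hI ⟨h1, h2⟩
    unfold nxt at this
    rwa [if_pos h3, if_pos h4] at this
  h1 x hl h2 h3 := h1_comp L hu hC hI hl h2 h3

end Pool.Agent.MP42.O3.BM
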