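import Mathlib

/-!
# Missing components have homogeneous boundaries: definitions (owner helper50)

A finite map given by its corners at the vertices of valence at least three.  `E x` is the next
corner of the same face, `τ x` the other side of the edge that arrives at the corner `x`,
`ν x = τ (E x)` the next corner around the vertex.  `lab x` is the name of the corner `x`, `ek x`
the kind of the edge arriving at `x`.
-/

set_option autoImplicit false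

namespace Pool.Agent.MP42.O3

/-- kinds of the ends of the edges -/
inductive Pos | r | t | h | z | x
  deriving DecidableEq, Repr

/-- kinds of the edges -/
inductive EK | R | G | T | a | b | z | x | P
  deriving DecidableEq, Repr

/-- names of the corners -/
inductive Lab
  | TX | TM | TZ | XU | XL | XA | ZA | ZL | ZU | YF | YT | YG | Vb | Vc | Va | Wb | Wc | Wa | B2 | B3
  deriving DecidableEq, Repr

/-- the next corner -/
def Lab.nx : Lab → Lab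
  | .TX => .TM | .TM => .TZ | .TZ => .TX
  | .XU => .XL | .XL => .XA | .XA => .XU
  | .ZA => .ZL | .ZL => .ZU | .ZU => .ZA
  | .YF => .YT | .YT => .YG | .YG => .YF
  | .Vb => .Vc | .Vc => .Va | .Va => .Vb
  | .Wb => .Wc | .Wc => .Wa | .Wa => .Wb
  | .B2 => .B3 | .B3 => .B2

/-- the end before the corner -/
def Lab.pos : Lab → Pos
  | .TX => .t | .TM => .r | .TZ => .r
  | .XU => .t | .XL => .r | .XA => .h
  | .ZA => .t | .ZL => .h | .ZU => .r
  | .YF => .r | .YT => .z | .YG => .x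
  | .Vb => .r | .Vc => .z | .Va => .t
  | .Wb => .r | .Wc => .t | .Wa => .x
  | .B2 => .r | .B3 => .t

/-- corners of a vertex of valence four -/
def Lab.isB : Lab → Bool
  | .B2 => true | .B3 => true | _ => false

/-- which kinds of edges have which ends -/
def EK.ok : EK → Pos → Pos → Bool
  | .R, _, _ => true
  | .G, .t, .t => true
  | .T, .t, .h => true | .T, .h, .t => true
  | .a, .t, .z => true | .a, .z, .t => true
  | .b, .t, .x => true | .b, .x, .t => true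
  | .z, .z, .z => true
  | .x, .x, .x => true
  | .P, .t, .t => true
  | _, _, _ => false

/-- the big map -/
structure BM (D : Type*) where
  E : Equiv.Perm D
  τ : D → D
  lab : D → Lab
  ek : D → EK
  ττ : ∀ x, τ (τ x) = x
  lab_nu : ∀ x, lab (τ (E x)) = (lab x).nx
  n3 : ∀ x, (lab x).isB = false → τ (E (τ (E (τ (E x))))) = x
  n4 : ∀ x, (lab x).isB = true → τ (E (τ (E (τ (E (τ (E x))))))) = x
  ekτ : ∀ x, ek (τ x) = ek x
  ekok : ∀ x, (ek x).ok (lab x).pos (lab (τ x)).pos = true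
  ekP : ∀ x, ek x = .P → τ x = x

namespace BM

variable {D : Type*} (M : BM D)

/-- the next corner around the vertex -/
def ν (x : D) : D := M.τ (M.E x)

/-- the previous corner around the vertex -/
def μ (x : D) : D := M.E.symm (M.τ x)

/-- the end of the arriving edge -/
def pos (x : D) : Pos := (M.lab x).pos

/-- up edges -/
def UpE (x : D) : Prop :=
  (M.ek x = .T ∧ M.pos x = .h) ∨ (M.ek x = .b ∧ M.pos x = .x) ∨ (M.ek x = .R ∧ M.lab x = .B2)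

/-- down edges -/
def DnE (x : D) : Prop :=
  (M.ek x = .T ∧ M.pos (M.τ x) = .h) ∨ (M.ek x = .a ∧ M.pos (M.τ x) = .z) ∨
    (M.ek x = .R ∧ M.lab (M.τ x) = .B2)

/-- minus links over the edge -/
def mkl (x : D) : Prop :=
  M.ek x = .R ∨ M.ek x = .G ∨ M.ek x = .x ∨ M.ek x = .b ∨ (M.ek x = .a ∧ M.pos x = .z)

/-- plus links over the edge -/
def pkl (x : D) : Prop :=
  M.ek x = .R ∨ M.ek x = .G ∨ M.ek x = .z ∨ M.ek x = .a ∨ (M.ek x = .b ∧ M.pos x = .x)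

/-- Patterns of a used vertex of valence four; `x` is a corner `2`. -/
def Mpat (S cE : D → Prop) (x : D) : Prop :=
  (S (M.μ x) ∧ cE (M.μ x) ∧ S (M.ν x) ∧ ¬ cE (M.ν x)) ∨
  (S x ∧ ¬ cE x ∧ S (M.ν (M.ν x)) ∧ cE (M.ν (M.ν x))) ∨
  (S (M.μ x) ∧ cE (M.μ x) ∧ S (M.ν (M.ν x)) ∧ cE (M.ν (M.ν x))) ∨
  (S x ∧ ¬ cE x ∧ S (M.ν x) ∧ ¬ cE (M.ν x))

/-- One level: `W` the faces of the level, `S` the reached faces, `cE` the class `E`, `used` the
used vertices; all links are exhausted. -/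
structure Lev (W S cE used : D → Prop) : Prop where
  WE : ∀ x, W (M.E x) ↔ W x
  SE : ∀ x, S (M.E x) ↔ S x
  cEE : ∀ x, cE (M.E x) ↔ cE x
  SW : ∀ x, S x → W x
  used3 : ∀ x, (M.lab x).isB = false → used x →
    (∃ w, (w = x ∨ w = M.ν x ∨ w = M.ν (M.ν x)) ∧ S w ∧ cE w ∧ S (M.ν w) ∧ ¬ cE (M.ν w)) ∨
      (S x ∧ S (M.ν x) ∧ S (M.ν (M.ν x)))
  usedB : ∀ x, M.lab x = .B2 → used x → M.Mpat S cE x ∨ M.Mpat S cE (M.ν (M.ν x))
  lm : ∀ u, (M.lab u).isB = false → ¬ used u → S u → cE u → W (M.ν u) → M.mkl (M.ν u) →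
    (M.lab u ≠ .YG ∨ M.ek (M.ν (M.ν u)) = .R ∨ M.ek u = .R) → S (M.ν u)
  lp : ∀ u, (M.lab u).isB = false → ¬ used u → W u → S (M.ν u) → ¬ cE (M.ν u) → M.pkl (M.ν u) →
    (M.lab u ≠ .YG ∨ M.ek (M.ν (M.ν u)) = .R ∨ M.ek u = .R) → S u
  ky1 : ∀ u, M.lab u = .YF → ¬ used u → W u → S (M.ν u) → cE (M.ν u) → S (M.ν (M.ν u)) → S u
  ky2 : ∀ u, M.lab u = .YF → ¬ used u → S u → S (M.ν u) → ¬ cE (M.ν u) → W (M.ν (M.ν u)) →
    S (M.ν (M.ν u))
  b1 : ∀ u, M.lab u = .B2 → W u → W (M.ν u) → W (M.ν (M.ν u)) → ¬ used u → S (M.μ u) →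
    cE (M.μ u) → (S (M.ν u) ∨ (cE (M.ν (M.ν u)) ∧ ¬ S u)) ∧ S (M.ν (M.ν u))
  b2 : ∀ u, M.lab u = .B2 → W (M.μ u) → W (M.ν u) → W (M.ν (M.ν u)) → ¬ used u → S u →
    ¬ cE u → S (M.ν u) ∧ (S (M.ν (M.ν u)) ∨ (¬ cE (M.ν u) ∧ ¬ S (M.μ u)))
  m9m : ∀ u, M.lab u = .B2 → S u → cE u → W (M.ν u) →
    (M.ek (M.ν u) = .R ∨ M.ek (M.ν u) = .G ∨ M.ek (M.ν u) = .b) → S (M.ν u)
  m9p : ∀ u, M.lab u = .B2 → W u → S (M.ν u) → ¬ cE (M.ν u) →
    (M.ek (M.ν u) = .R ∨ M.ek (M.ν u) = .G ∨ M.ek (M.ν u) = .a) → S u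

/-- a component of the missing faces -/
structure Comp (W S W' : D → Prop) : Prop where
  WE : ∀ x, W' (M.E x) ↔ W' x
  sub : ∀ x, W' x → W x
  nS : ∀ x, W' x → ¬ S x
  cl : ∀ x, W' x → W (M.τ x) → ¬ S (M.τ x) → W' (M.τ x)

/-- a homogeneous boundary -/
structure Inv (W col : D → Prop) : Prop where
  up : ∀ x, W x → ¬ W (M.τ x) → col x → M.UpE x
  dn : ∀ x, W x → ¬ W (M.τ x) → ¬ col x → M.DnE x
  nx1 : ∀ x, W x → ¬ W (M.τ x) → ¬ W (M.ν x) → (col (M.E x) ↔ col x)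
  nx2 : ∀ x, W x → ¬ W (M.τ x) → W (M.ν x) → ¬ W (M.ν (M.ν x)) → (col (M.E (M.ν x)) ↔ col x)
  nx3 : ∀ x, W x → ¬ W (M.τ x) → W (M.ν x) → W (M.ν (M.ν x)) → ¬ W (M.ν (M.ν (M.ν x))) →
    (col (M.E (M.ν (M.ν x))) ↔ col x)
  h1 : ∀ x, M.lab x = .B2 → W x → W (M.μ x) → W (M.ν x) ∧ W (M.ν (M.ν x))

/-! ## Basic facts -/

variable {M}

lemma ν_μ (x : D) : M.ν (M.μ x) = x := by
  unfold ν μ
  rw [Equiv.apply_symm_apply, M.ττ]

lemma μ_ν (x : D) : M.μ (M.ν x) = x := by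
  unfold ν μ
  rw [M.ττ, Equiv.symm_apply_apply]

lemma E_μ (x : D) : M.E (M.μ x) = M.τ x := by
  unfold μ
  rw [Equiv.apply_symm_apply]

lemma τ_E (x : D) : M.τ (M.E x) = M.ν x := rfl

lemma lab_ν (x : D) : M.lab (M.ν x) = (M.lab x).nx := M.lab_nu x

lemma μ_3 {x : D} (h : (M.lab x).isB = false) : M.μ x = M.ν (M.ν x) := by
  have h1 : M.ν (M.ν (M.ν x)) = x := M.n3 x h
  rw [← h1, μ_ν, h1]

lemma μ_4 {x : D} (h : (M.lab x).isB = true) : M.μ x = M.ν (M.ν (M.ν x)) := by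
  have h1 : M.ν (M.ν (M.ν (M.ν x))) = x := M.n4 x h
  rw [← h1, μ_ν, h1]

lemma isB_nx (l : Lab) : l.nx.isB = l.isB := by cases l <;> rfl

lemma isB_ν (x : D) : (M.lab (M.ν x)).isB = (M.lab x).isB := by rw [lab_ν, isB_nx]

lemma isB_μ (x : D) : (M.lab (M.μ x)).isB = (M.lab x).isB := by
  rw [← isB_ν (M.μ x), ν_μ]

end BM

end Pool.Agent.MP42.O3
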