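import Pool.Agent.MP42.O3.Table

/-!
# Homogeneity of the boundary (owner helper50)
-/

set_option autoImplicit false

namespace Pool.Agent.MP42.O3.BM

variable {D : Type*} {M : BM D} {W S cE used W' col : D → Prop}

/-! ## The walk along the boundary -/

open Classical in
/-- the next boundary edge -/
noncomputable def nxt (M : BM D) (W : D → Prop) (x : D) : D :=
  if W (M.ν x) then (if W (M.ν (M.ν x)) then M.E (M.ν (M.ν x)) else M.E (M.ν x)) else M.E x

open Classical in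
/-- the previous boundary edge -/
noncomputable def prv (M : BM D) (W : D → Prop) (z : D) : D :=
  if W (M.μ (M.E.symm z)) then
    (if W (M.μ (M.μ (M.E.symm z))) then M.μ (M.μ (M.E.symm z)) else M.μ (M.E.symm z))
  else M.E.symm z

/-- boundary edges -/
def Bd (M : BM D) (W : D → Prop) (x : D) : Prop := W x ∧ ¬ W (M.τ x)

/-- the corner before the next boundary edge -/
lemma nxt_cases (hWE : ∀ x, W (M.E x) ↔ W x) {x : D} (h : M.Bd W x) :
    (¬ W (M.ν x) ∧ M.nxt W x = M.E x) ∨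
    (W (M.ν x) ∧ ¬ W (M.ν (M.ν x)) ∧ M.nxt W x = M.E (M.ν x)) ∨
    (W (M.ν x) ∧ W (M.ν (M.ν x)) ∧ ¬ W (M.ν (M.ν (M.ν x))) ∧ (M.lab x).isB = true ∧
      M.nxt W x = M.E (M.ν (M.ν x))) := by
  by_cases h1 : W (M.ν x)
  · by_cases h2 : W (M.ν (M.ν x))
    · right; right
      have h3 : ¬ W (M.μ x) := by rw [inv_μ hWE]; exact h.2
      rcases hb : (M.lab x).isB with _ | _
      · rw [μ_3 hb] at h3; exact absurd h2 h3
      · rw [μ_4 hb] at h3
        exact ⟨h1, h2, h3, rfl, by unfold nxt; rw [if_pos h1, if_pos h2]⟩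
    · right; left
      exact ⟨h1, h2, by unfold nxt; rw [if_pos h1, if_neg h2]⟩
  · left
    exact ⟨h1, by unfold nxt; rw [if_neg h1]⟩

lemma nxt_bd (hWE : ∀ x, W (M.E x) ↔ W x) {x : D} (h : M.Bd W x) : M.Bd W (M.nxt W x) := by
  rcases nxt_cases hWE h with ⟨h1, e⟩ | ⟨h1, h2, e⟩ | ⟨h1, h2, h3, -, e⟩ <;> rw [e]
  · exact ⟨(hWE _).2 h.1, h1⟩
  · exact ⟨(hWE _).2 h1, h2⟩
  · exact ⟨(hWE _).2 h2, h3⟩

lemma prv_nxt (hWE : ∀ x, W (M.E x) ↔ W x) {x : D} (h : M.Bd W x) :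
    M.prv W (M.nxt W x) = x := by
  have h0 : ¬ W (M.μ x) := by rw [inv_μ hWE]; exact h.2
  rcases nxt_cases hWE h with ⟨h1, e⟩ | ⟨h1, h2, e⟩ | ⟨h1, h2, h3, -, e⟩ <;> rw [e] <;>
    unfold prv <;> rw [Equiv.symm_apply_apply]
  · rw [if_neg h0]
  · rw [μ_ν, if_pos h.1, if_neg h0]
  · rw [μ_ν, μ_ν, if_pos h1, if_pos h.1]

/-- a forward invariant set of boundary edges is invariant -/
lemma bd_inv [Finite D] (hWE : ∀ x, W (M.E x) ↔ W x) {U : D → Prop}
    (hU : ∀ x, M.Bd W x → U x → U (M.nxt W x)) {x : D} (h : M.Bd W x) (h1 : U (M.nxt W x)) :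
    U x := by
  classical
  let f : {x : D // M.Bd W x} → {x : D // M.Bd W x} := fun y => ⟨M.nxt W y.1, nxt_bd hWE y.2⟩
  have hf : Function.Injective f := by
    intro y z hyz
    have h2 : M.nxt W y.1 = M.nxt W z.1 := congrArg Subtype.val hyz
    apply Subtype.ext
    rw [← prv_nxt hWE y.2, ← prv_nxt hWE z.2, h2]
  have hb : Function.Bijective f := Finite.injective_iff_bijective.1 hf
  let σ : Equiv.Perm {x : D // M.Bd W x} := Equiv.ofBijective f hb
  have hk : ∀ (k : ℕ) (y : {x : D // M.Bd W x}), U y.1 → U ((σ ^ k) y).1 := by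
    intro k
    induction k with
    | zero => intro y hy; exact hy
    | succ k ih =>
      intro y hy
      rw [pow_succ']
      exact hU _ ((σ ^ k) y).2 (ih y hy)
  have hpos : 0 < orderOf σ := orderOf_pos σ
  have h3 := hk (orderOf σ - 1) (σ ⟨x, h⟩) h1
  have h4 : (σ ^ (orderOf σ - 1)) (σ ⟨x, h⟩) = ⟨x, h⟩ := by
    have h5 : (σ ^ (orderOf σ - 1)) * σ = 1 := by
      rw [← pow_succ, Nat.sub_add_cancel hpos, pow_orderOf_eq_one]
    have h6 := congrArg (fun p : Equiv.Perm {x : D // M.Bd W x} => p ⟨x, h⟩) h5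
    exact h6
  rw [h4] at h3
  exact h3

/-! ## Colours of the boundary of a component -/

/-- up -/
def IU (M : BM D) (cE : D → Prop) (x : D) : Prop :=
  (M.ek x = .T ∧ M.pos x = .h) ∨ (M.ek x = .b ∧ M.pos x = .x ∧ ¬ cE (M.τ x)) ∨
    (M.ek x = .R ∧ M.lab x = .B2 ∧ cE (M.τ x))

/-- down -/
def ID (M : BM D) (cE : D → Prop) (x : D) : Prop :=
  (M.ek x = .T ∧ M.pos (M.τ x) = .h) ∨ (M.ek x = .a ∧ M.pos (M.τ x) = .z ∧ cE (M.τ x)) ∨
    (M.ek x = .R ∧ M.lab (M.τ x) = .B2 ∧ ¬ cE (M.τ x))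

/-- the colour `up` -/
def Up (M : BM D) (W cE col : D → Prop) (x : D) : Prop :=
  (¬ W (M.τ x) ∧ col x) ∨ (W (M.τ x) ∧ M.IU cE x)

/-- the colour `down` -/
def Dn (M : BM D) (W cE col : D → Prop) (x : D) : Prop :=
  (¬ W (M.τ x) ∧ ¬ col x) ∨ (W (M.τ x) ∧ M.ID cE x)

/-- neutral edges -/
def Nz (M : BM D) (W cE : D → Prop) (x : D) : Prop := W (M.τ x) ∧ M.ek x = .z ∧ cE (M.τ x)

/-- neutral edges -/
def Nx (M : BM D) (W cE : D → Prop) (x : D) : Prop := W (M.τ x) ∧ M.ek x = .x ∧ ¬ cE (M.τ x)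

lemma T_pos {x : D} (h : M.ek x = .T) : M.pos x = .h ∨ M.pos (M.τ x) = .h := by
  have h2 := M.ekok x
  unfold pos
  rw [h] at h2
  revert h2
  cases (M.lab x).pos <;> cases (M.lab (M.τ x)).pos <;> simp [EK.ok]

/-- the outside of a component of the missing faces -/
lemma Comp.bd (hC : M.Comp W S W') {x : D} (h : M.Bd W' x) : ¬ W (M.τ x) ∨ S (M.τ x) := by
  by_cases h1 : W (M.τ x)
  · exact Or.inr (hC.out h.1 h1 h.2)
  · exact Or.inl h1

/-- the four colours -/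
lemma colours (L : M.Lev W S cE used) (hC : M.Comp W S W') (hI : M.Inv W col) {x : D}
    (h : M.Bd W' x) : M.Up W cE col x ∨ M.Dn W cE col x ∨ M.Nz W cE x ∨ M.Nx W cE x := by
  rcases hC.bd h with h1 | h1
  · by_cases h2 : col x
    · exact Or.inl (Or.inl ⟨h1, h2⟩)
    · exact Or.inr (Or.inl (Or.inl ⟨h1, h2⟩))
  · have hW := L.SW _ h1
    by_cases h2 : cE (M.τ x)
    · rcases tabE L hC hI h.1 h1 h2 with h3 | h3 | h3 | h3
      · rcases T_pos h3 with h4 | h4
        · exact Or.inl (Or.inr ⟨hW, Or.inl ⟨h3, h4⟩⟩)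
        · exact Or.inr (Or.inl (Or.inr ⟨hW, Or.inl ⟨h3, h4⟩⟩))
      · exact Or.inl (Or.inr ⟨hW, Or.inr (Or.inr ⟨h3.1, h3.2, h2⟩)⟩)
      · exact Or.inr (Or.inl (Or.inr ⟨hW, Or.inr (Or.inl ⟨h3.1, h3.2, h2⟩)⟩))
      · exact Or.inr (Or.inr (Or.inl ⟨hW, h3, h2⟩))
    · rcases tabO L hC hI h.1 h1 h2 with h3 | h3 | h3 | h3
      · rcases T_pos h3 with h4 | h4
        · exact Or.inl (Or.inr ⟨hW, Or.inl ⟨h3, h4⟩⟩)
        · exact Or.inr (Or.inl (Or.inr ⟨hW, Or.inl ⟨h3, h4⟩⟩))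
      · exact Or.inr (Or.inl (Or.inr ⟨hW, Or.inr (Or.inr ⟨h3.1, h3.2, h2⟩)⟩))
      · exact Or.inl (Or.inr ⟨hW, Or.inr (Or.inl ⟨h3.1, h3.2, h2⟩)⟩)
      · exact Or.inr (Or.inr (Or.inr ⟨hW, h3, h2⟩))

lemma Up.upE (hC : M.Comp W S W') (hI : M.Inv W col) {x : D} (h : M.Bd W' x)
    (h1 : M.Up W cE col x) : M.UpE x := by
  rcases h1 with ⟨h2, h3⟩ | ⟨-, h3⟩
  · exact hI.up x (hC.sub x h.1) h2 h3
  · rcases h3 with h3 | h3 | h3
    · exact Or.inl h3
    · exact Or.inr (Or.inl ⟨h3.1, h3.2.1⟩)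
    · exact Or.inr (Or.inr ⟨h3.1, h3.2.1⟩)

lemma Dn.dnE (hC : M.Comp W S W') (hI : M.Inv W col) {x : D} (h : M.Bd W' x)
    (h1 : M.Dn W cE col x) : M.DnE x := by
  rcases h1 with ⟨h2, h3⟩ | ⟨-, h3⟩
  · exact hI.dn x (hC.sub x h.1) h2 h3
  · rcases h3 with h3 | h3 | h3
    · exact Or.inl h3
    · exact Or.inr (Or.inl ⟨h3.1, h3.2.1⟩)
    · exact Or.inr (Or.inr ⟨h3.1, h3.2.1⟩)

lemma pos_z {x : D} (h : M.ek x = .z) : M.pos x = .z ∧ M.pos (M.τ x) = .z := by
  have h2 := M.ekok x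
  unfold pos
  rw [h] at h2
  revert h2
  cases (M.lab x).pos <;> cases (M.lab (M.τ x)).pos <;> simp [EK.ok]

lemma pos_x {x : D} (h : M.ek x = .x) : M.pos x = .x ∧ M.pos (M.τ x) = .x := by
  have h2 := M.ekok x
  unfold pos
  rw [h] at h2
  revert h2
  cases (M.lab x).pos <;> cases (M.lab (M.τ x)).pos <;> simp [EK.ok]

/-- an edge that departs at another end than `h`, `z`, `x`, and not at a `B2`, is up -/
lemma up_of_dep (L : M.Lev W S cE used) (hC : M.Comp W S W') (hI : M.Inv W col) {c : D}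
    (h : M.Bd W' (M.E c)) (h1 : M.pos (M.ν c) = .t ∨ (M.pos (M.ν c) = .r ∧ M.lab (M.ν c) ≠ .B2)) :
    M.Up W cE col (M.E c) := by
  have e : M.τ (M.E c) = M.ν c := rfl
  rcases colours (cE := cE) L hC hI h with h2 | h2 | h2 | h2
  · exact h2
  · exfalso
    have h3 := h2.dnE hC hI h
    unfold DnE at h3
    rw [e] at h3
    rcases h3 with h3 | h3 | h3
    · rcases h1 with h1 | h1
      · rw [h1] at h3; exact absurd h3.2 (by decide)
      · rw [h1.1] at h3; exact absurd h3.2 (by decide)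
    · rcases h1 with h1 | h1
      · rw [h1] at h3; exact absurd h3.2 (by decide)
      · rw [h1.1] at h3; exact absurd h3.2 (by decide)
    · rcases h1 with h1 | h1
      · unfold pos at h1; rw [h3.2] at h1; exact absurd h1 (by decide)
      · exact h1.2 h3.2
  · exfalso
    have h3 := (pos_z h2.2.1).2
    rw [e] at h3
    rcases h1 with h1 | h1
    · rw [h1] at h3; exact absurd h3 (by decide)
    · rw [h1.1] at h3; exact absurd h3 (by decide)
  · exfalso
    have h3 := (pos_x h2.2.1).2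
    rw [e] at h3
    rcases h1 with h1 | h1
    · rw [h1] at h3; exact absurd h3 (by decide)
    · rw [h1.1] at h3; exact absurd h3 (by decide)

/-- an edge that arrives at an end `t` or at a real end that is not `B2` is down -/
lemma dn_of_arr (L : M.Lev W S cE used) (hC : M.Comp W S W') (hI : M.Inv W col) {x : D}
    (h : M.Bd W' x) (h1 : M.pos x = .t ∨ (M.pos x = .r ∧ M.lab x ≠ .B2)) :
    M.Dn W cE col x := by
  rcases colours (cE := cE) L hC hI h with h2 | h2 | h2 | h2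
  · exfalso
    have h3 := h2.upE hC hI h
    unfold UpE at h3
    rcases h3 with h3 | h3 | h3
    · rcases h1 with h1 | h1
      · rw [h1] at h3; exact absurd h3.2 (by decide)
      · rw [h1.1] at h3; exact absurd h3.2 (by decide)
    · rcases h1 with h1 | h1
      · rw [h1] at h3; exact absurd h3.2 (by decide)
      · rw [h1.1] at h3; exact absurd h3.2 (by decide)
    · rcases h1 with h1 | h1
      · unfold pos at h1; rw [h3.2] at h1; exact absurd h1 (by decide)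
      · exact h1.2 h3.2
  · exact h2
  · exfalso
    have h3 := (pos_z h2.2.1).1
    rcases h1 with h1 | h1
    · rw [h1] at h3; exact absurd h3 (by decide)
    · rw [h1.1] at h3; exact absurd h3 (by decide)
  · exfalso
    have h3 := (pos_x h2.2.1).1
    rcases h1 with h1 | h1
    · rw [h1] at h3; exact absurd h3 (by decide)
    · rw [h1.1] at h3; exact absurd h3 (by decide)

end Pool.Agent.MP42.O3.BM
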