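import Pool.Agent.MP42.O3.Rank
import Pool.Agent.MP42.EO.VC

/-!
# The map of the ribbons (owner helper50)
-/

set_option autoImplicit false
set_option linter.unusedSectionVars false

namespace Pool.Agent.MP42.EO

open Pool.Agent.Helper55.UNF Pool.Agent.Helper55.UNF.GridSolid Pool.Agent.MP42.NE
open Pool.Agent.MP42.Geo Pool.Agent.MP42NG Pool.Agent.MP42 Pool.Agent.MP42.O3
open Loc8

/-- position of a ribbon dart -/
def posL (a b m q : ℕ) : Pos :=
  bif q / 8 == a then .r
  else bif q / 8 == b then (bif kpi m q / 8 == b then .x else .t)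
  else (bif kpi m q / 8 == b then .h else .z)

/-- the vertices, valence one and two -/
def g12 (a b m q : ℕ) : Bool :=
  (!(nuL a b m q == q) || (posL a b m q == .h)) &&
  ((nuL a b m q == q) || !(nuL a b m (nuL a b m q) == q) ||
    ok2 (posL a b m q) (posL a b m (nuL a b m q)))

/-- the vertices, valence three -/
def g3 (a b m q : ℕ) : Bool :=
  (nuL a b m q == q) || (nuL a b m (nuL a b m q) == q) ||
    !(nuL a b m (nuL a b m (nuL a b m q)) == q) ||
    ok3 (posL a b m q) (posL a b m (nuL a b m q)) (posL a b m (nuL a b m (nuL a b m q)))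

/-- the vertices, valence four -/
def g4 (a b m q : ℕ) : Bool :=
  (nuL a b m q == q) || (nuL a b m (nuL a b m q) == q) ||
    (nuL a b m (nuL a b m (nuL a b m q)) == q) ||
    ((nuL a b m (nuL a b m (nuL a b m (nuL a b m q))) == q) &&
      (((posL a b m q == .r) && (posL a b m (nuL a b m q) == .t)) ||
        ((posL a b m q == .t) && (posL a b m (nuL a b m q) == .r))))

lemma g12_all : ∀ m < 256, allT g12 m = true := by decide +kernel

lemma g3_all : ∀ m < 256, allT g3 m = true := by decide +kernel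

lemma g4_all : ∀ m < 256, allT g4 m = true := by decide +kernel

variable {Q : GridSolid} {a b : Fin 3}

/-- position of a ribbon dart at its east end -/
def psH (x : RD Q a b) : Pos := posL a b (pa x) (lo x)

lemma kpi_lo (x : RD Q a b) : kpi (pa x) (lo x) / 8 = (x.1.1.stN.1.d.1 : ℕ) := kpi_loc _

lemma psH_eq (x : RD Q a b) : psH x =
    if x.1.1.1.d.1 = a then .r
    else if x.1.1.1.d.1 = b then (if x.1.1.stN.1.d.1 = b then .x else .t)
    else (if x.1.1.stN.1.d.1 = b then .h else .z) := by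
  unfold psH posL
  rw [kpi_lo, lo_div]
  simp only [beq_eq_decide, Fin.val_inj, cond_eq_ite, decide_eq_true_eq]

lemma psH_r (x : RD Q a b) : psH x = .r ↔ x.1.1.1.d.1 = a := by
  rw [psH_eq]
  split_ifs <;> simp_all

lemma psH_wall {x : RD Q a b} (h : psH x ≠ .r) : x.1.1.1.e.1 = a := by
  rcases wall_or_cap x with h1 | h1
  · exact h1
  · exact absurd ((psH_r x).2 h1) h

lemma wl_wall {x : RD Q a b} (h : x.1.1.1.e.1 = a) : wl a (lo x) = true := by
  unfold wl
  rw [beq_iff_eq]
  show eax (loc x.1.1 % 8) (loc x.1.1 / 8) = _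
  rw [eax_loc]
  exact congrArg Fin.val h

lemma psH_tH (hab : a ≠ b) (x : RD Q a b) : psH (tH hab x) = (psH x).op := by
  by_cases h : x.1.1.1.d.1 = a
  · rw [(psH_r x).2 h, (psH_r _).2 (tH_cap_d hab h)]; rfl
  · have hw : x.1.1.1.e.1 = a := (wall_or_cap x).resolve_right h
    have h1 : (tH hab x).1.1 = x.1.1.stN.r2 := by
      rw [tH_val]; unfold taF; rw [if_neg h]
    have h2 : ¬ x.1.1.stN.1.d.1 = a := wall_stN hw
    rw [psH_eq, psH_eq, h1]
    have h3 : x.1.1.stN.r2.1.d.1 = x.1.1.stN.1.d.1 := rfl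
    have h4 : x.1.1.stN.r2.stN.1.d.1 = x.1.1.1.d.1 := by rw [FSt.stN_inv]; rfl
    rw [h3, h4, if_neg h2, if_neg h]
    by_cases h5 : x.1.1.1.d.1 = b <;> by_cases h6 : x.1.1.stN.1.d.1 = b <;> simp [h5, h6, Pos.op]

section

variable (hM : Q.IsManifold) (hab : a ≠ b)

include hM

lemma sig_nu {x : RD Q a b} (h1 : psH x ≠ .r) (h2 : psH (nu (EH hab) (tH hab) x) ≠ .r)
    (h3 : nu (EH hab) (tH hab) x ≠ x) : up (nu (EH hab) (tH hab) x) = !(up x) := by
  have hw1 := psH_wall h1
  have hw2 := psH_wall h2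
  have h4 := RD.fact f2_all hM hab x
  unfold f2 at h4
  rw [Bool.and_eq_true] at h4
  have h5 := h4.1
  rw [← lo_nu hab, wl_wall hw1, wl_wall hw2] at h5
  have h6 : ¬ lo (nu (EH hab) (tH hab) x) = lo x := fun h => h3 ((eq_iff_lo (pt_nu hab x)).2 h)
  have h7 := bit_wall x hw1
  have h8 := bit_wall _ hw2
  rw [h7, h8] at h5
  have h9 : (lo (nu (EH hab) (tH hab) x) == lo x) = false := by
    rw [beq_eq_false_iff_ne]; exact h6
  rw [h9] at h5
  revert h5
  cases up x <;> cases up (nu (EH hab) (tH hab) x) <;> simp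

lemma sig_nu2 {x : RD Q a b} (h1 : psH x ≠ .r)
    (h2 : psH (nu (EH hab) (tH hab) (nu (EH hab) (tH hab) x)) ≠ .r)
    (h3 : nu (EH hab) (tH hab) (nu (EH hab) (tH hab) x) ≠ x) :
    up (nu (EH hab) (tH hab) (nu (EH hab) (tH hab) x)) = !(up x) := by
  have hw1 := psH_wall h1
  have hw2 := psH_wall h2
  have h4 := RD.fact f2_all hM hab x
  unfold f2 at h4
  rw [Bool.and_eq_true] at h4
  have h5 := h4.2
  have e : lo (nu (EH hab) (tH hab) (nu (EH hab) (tH hab) x)) =
      nuL a b (pa x) (nuL a b (pa x) (lo x)) := by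
    rw [lo_nu, pa_nu, lo_nu]
  rw [← e, wl_wall hw1, wl_wall hw2] at h5
  have h6 : ¬ lo (nu (EH hab) (tH hab) (nu (EH hab) (tH hab) x)) = lo x := fun h =>
    h3 ((eq_iff_lo (by rw [pt_nu, pt_nu])).2 h)
  have h7 := bit_wall x hw1
  have h8 := bit_wall _ hw2
  rw [h7, h8] at h5
  have h9 : (lo (nu (EH hab) (tH hab) (nu (EH hab) (tH hab) x)) == lo x) = false := by
    rw [beq_eq_false_iff_ne]; exact h6
  rw [h9] at h5
  revert h5
  cases up x <;> cases up (nu (EH hab) (tH hab) (nu (EH hab) (tH hab) x)) <;> simp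

end

/-- **the map of the ribbons of the spine system** -/
noncomputable def UMH (hM : Q.IsManifold) (hab : a ≠ b) : UM (RD Q a b) where
  E := EH hab
  τ := tH hab
  ps := psH
  σ := up
  y x := pt x a
  ττ := tH_tH hab
  ne := tH_ne hab
  un := psH_tH hab
  v1 x h := by
    have h1 := RD.fact g12_all hM hab x
    unfold g12 at h1
    rw [Bool.and_eq_true] at h1
    have h2 := (nu_eq_iff hab x).1 h
    have h3 := h1.1
    rw [h2] at h3
    simpa [psH] using h3
  v2 x h h' := by
    have h1 := RD.fact g12_all hM hab x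
    unfold g12 at h1
    rw [Bool.and_eq_true] at h1
    have h2 : (nuL a b (pa x) (lo x) == lo x) = false := by
      rw [beq_eq_false_iff_ne]; exact fun h2 => h ((nu_eq_iff hab x).2 h2)
    have h4 := (nu2_eq_iff hab x).1 h'
    have h3 := h1.2
    rw [h2, h4] at h3
    have e : psH (tH hab (EH hab x)) = posL a b (pa x) (nuL a b (pa x) (lo x)) := by
      unfold psH
      rw [show pa (tH hab (EH hab x)) = pa x from pa_nu hab x,
        show lo (tH hab (EH hab x)) = _ from lo_nu hab x]
    rw [e]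
    simpa [psH] using h3
  v3 x h h' h'' := by
    have h1 := RD.fact g3_all hM hab x
    unfold g3 at h1
    have h2 : (nuL a b (pa x) (lo x) == lo x) = false := by
      rw [beq_eq_false_iff_ne]; exact fun h2 => h ((nu_eq_iff hab x).2 h2)
    have h3 : (nuL a b (pa x) (nuL a b (pa x) (lo x)) == lo x) = false := by
      rw [beq_eq_false_iff_ne]; exact fun h2 => h' ((nu2_eq_iff hab x).2 h2)
    have h4 := (nu3_eq_iff hab x).1 h''
    rw [h2, h3, h4] at h1
    have e1 : psH (tH hab (EH hab x)) = posL a b (pa x) (nuL a b (pa x) (lo x)) := by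
      unfold psH
      rw [show pa (tH hab (EH hab x)) = pa x from pa_nu hab x,
        show lo (tH hab (EH hab x)) = _ from lo_nu hab x]
    have e2 : psH (tH hab (EH hab (tH hab (EH hab x)))) =
        posL a b (pa x) (nuL a b (pa x) (nuL a b (pa x) (lo x))) := by
      unfold psH
      rw [show pa (tH hab (EH hab (tH hab (EH hab x)))) = pa (tH hab (EH hab x)) from pa_nu hab _,
        show lo (tH hab (EH hab (tH hab (EH hab x)))) = _ from lo_nu hab _,
        show pa (tH hab (EH hab x)) = pa x from pa_nu hab x,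
        show lo (tH hab (EH hab x)) = _ from lo_nu hab x]
    rw [e1, e2]
    simpa [psH] using h1
  v4 x h h' h'' := by
    have h1 := RD.fact g4_all hM hab x
    unfold g4 at h1
    have h2 : (nuL a b (pa x) (lo x) == lo x) = false := by
      rw [beq_eq_false_iff_ne]; exact fun h2 => h ((nu_eq_iff hab x).2 h2)
    have h3 : (nuL a b (pa x) (nuL a b (pa x) (lo x)) == lo x) = false := by
      rw [beq_eq_false_iff_ne]; exact fun h2 => h' ((nu2_eq_iff hab x).2 h2)
    have h4 : (nuL a b (pa x) (nuL a b (pa x) (nuL a b (pa x) (lo x))) == lo x) = false := by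
      rw [beq_eq_false_iff_ne]; exact fun h2 => h'' ((nu3_eq_iff hab x).2 h2)
    rw [h2, h3, h4] at h1
    have e1 : psH (tH hab (EH hab x)) = posL a b (pa x) (nuL a b (pa x) (lo x)) := by
      unfold psH
      rw [show pa (tH hab (EH hab x)) = pa x from pa_nu hab x,
        show lo (tH hab (EH hab x)) = _ from lo_nu hab x]
    rw [Bool.false_or, Bool.false_or, Bool.false_or, Bool.and_eq_true] at h1
    refine ⟨?_, ?_⟩
    · have h5 := h1.1
      rw [beq_iff_eq] at h5
      rw [← lo_nu hab, ← pa_nu hab x, ← lo_nu hab, ← pa_nu hab (nu (EH hab) (tH hab) x),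
        ← lo_nu hab, ← pa_nu hab (nu (EH hab) (tH hab) (nu (EH hab) (tH hab) x)),
        ← lo_nu hab] at h5
      exact (eq_iff_lo (by
        show pt (nu (EH hab) (tH hab) (nu (EH hab) (tH hab) (nu (EH hab) (tH hab)
          (nu (EH hab) (tH hab) x)))) = pt x
        rw [pt_nu, pt_nu, pt_nu, pt_nu])).2 h5
    · rw [e1]
      simpa [psH] using h1.2
  w1 x h := by
    obtain ⟨-, h1, h2⟩ := tH_wall hab (psH_wall h)
    refine ⟨h1, ?_⟩
    show pt x a = pt (tH hab x) a + _
    rw [h2 a]
    unfold vec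
    rw [if_pos rfl]
    ring
  w2 x := by
    show pt (nu (EH hab) (tH hab) x) a = pt x a
    rw [pt_nu]
  w3 x h1 h2 h3 := sig_nu hM hab h1 h2 h3
  w3' x h1 h2 h3 := sig_nu2 hM hab h1 h2 h3

end Pool.Agent.MP42.EO
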