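import Pool.Agent.MP42.O3.Hom

/-!
# No turn from up to down (owner helper50)
-/

set_option autoImplicit false

namespace Pool.Agent.MP42.O3.BM

variable {D : Type*} {M : BM D} {W S cE used W' col : D → Prop}

lemma lab_h {x : D} (h : M.pos x = .h) : M.lab x = .XA ∨ M.lab x = .ZL := by
  unfold pos at h; revert h; cases M.lab x <;> simp [Lab.pos]

lemma lab_x {x : D} (h : M.pos x = .x) : M.lab x = .YG ∨ M.lab x = .Wa := by
  unfold pos at h; revert h; cases M.lab x <;> simp [Lab.pos]

lemma lab_z {x : D} (h : M.pos x = .z) : M.lab x = .YT ∨ M.lab x = .Vc := by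
  unfold pos at h; revert h; cases M.lab x <;> simp [Lab.pos]

/-- the easy corners -/
lemma next_easy (L : M.Lev W S cE used) (hC : M.Comp W S W') (hI : M.Inv W col) {x : D}
    (h : M.Bd W' x)
    (h1 : (M.lab x).isB = false)
    (h2 : M.pos (M.ν x) = .t ∨ M.pos (M.ν x) = .r)
    (h3 : W' (M.ν x) → M.pos (M.ν (M.ν x)) = .t ∨ M.pos (M.ν (M.ν x)) = .r) :
    M.Up W cE col (M.nxt W' x) := by
  have hb1 : (M.lab (M.ν x)).isB = false := by rw [isB_ν, h1]
  have hb2 : (M.lab (M.ν (M.ν x))).isB = false := by rw [isB_ν, hb1]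
  have hn : M.Bd W' (M.nxt W' x) := nxt_bd hC.WE h
  rcases nxt_cases hC.WE h with ⟨h4, e⟩ | ⟨h4, h5, e⟩ | ⟨-, -, -, h4, -⟩
  · rw [e] at hn ⊢
    refine up_of_dep L hC hI hn ?_
    rcases h2 with h2 | h2
    · exact Or.inl h2
    · refine Or.inr ⟨h2, fun h6 => ?_⟩
      rw [h6] at hb1; exact absurd hb1 (by decide)
  · rw [e] at hn ⊢
    refine up_of_dep L hC hI hn ?_
    rcases h3 h4 with h2 | h2
    · exact Or.inl h2
    · refine Or.inr ⟨h2, fun h6 => ?_⟩
      rw [h6] at hb2; exact absurd hb2 (by decide)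
  · rw [h1] at h4; exact absurd h4 (by decide)

/-- the `K_y` corner -/
lemma next_YG (L : M.Lev W S cE used) (hC : M.Comp W S W') (hI : M.Inv W col) {x : D}
    (h : M.Bd W' x) (h1 : M.lab x = .YG) (h2 : M.Up W cE col x ∨ M.Nx W cE x) :
    M.Up W cE col (M.nxt W' x) := by
  have hb : (M.lab x).isB = false := by rw [h1]; rfl
  have hF : M.lab (M.ν x) = .YF := by rw [lab_ν, h1]; rfl
  have hT : M.lab (M.ν (M.ν x)) = .YT := by rw [lab_ν, hF]; rfl
  have hm : M.μ x = M.ν (M.ν x) := μ_3 hb
  by_cases h3 : W' (M.ν x)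
  · have hn : M.Bd W' (M.nxt W' x) := nxt_bd hC.WE h
    rcases nxt_cases hC.WE h with ⟨h4, -⟩ | ⟨-, h5, e⟩ | ⟨-, -, -, h4, -⟩
    · exact absurd h3 h4
    · rw [e] at hn ⊢
      have e1 : M.τ (M.E (M.ν x)) = M.ν (M.ν x) := rfl
      have hpT : M.pos (M.ν (M.ν x)) = .z := by unfold pos; rw [hT]; rfl
      by_cases hWT : W (M.ν (M.ν x))
      · -- the third corner is reached
        exfalso
        have hWτ : W (M.τ x) := by rw [← inv_μ L.WE, hm]; exact hWT
        have hc1 : ¬ cE (M.τ x) := by
          rcases h2 with h2 | h2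
          · rcases h2 with h2 | ⟨-, h2⟩
            · exact absurd hWτ h2.1
            · rcases h2 with h2 | h2 | h2
              · exfalso
                have : M.pos x = .x := by unfold pos; rw [h1]; rfl
                rw [this] at h2; exact absurd h2.2 (by decide)
              · exact h2.2.2
              · rw [h1] at h2; exact absurd h2.2.1 (by decide)
          · exact h2.2.2
        have hc2 : ¬ cE (M.ν (M.ν x)) := by rw [← hm, inv_μ L.cEE]; exact hc1
        have hS : S (M.ν (M.ν x)) := by
          rcases hC.bd hn with h6 | h6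
          · exact absurd hWT h6
          · exact h6
        rcases tabO L hC hI hn.1 (by rw [e1]; exact hS) (by rw [e1]; exact hc2) with h6 | h6 | h6 | h6
        · rcases T_pos h6 with h7 | h7
          · have h8 := M.ekok (M.E (M.ν x))
            rw [h6, e1, hT] at h8
            revert h8
            cases (M.lab (M.E (M.ν x))).pos <;> simp [EK.ok, Lab.pos]
          · rw [e1, hpT] at h7; exact absurd h7 (by decide)
        · rw [e1, hT] at h6; exact absurd h6.2 (by decide)
        · have h8 := M.ekok (M.E (M.ν x))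
          rw [h6.1, e1, hT] at h8
          revert h8
          cases (M.lab (M.E (M.ν x))).pos <;> simp [EK.ok, Lab.pos]
        · have := (pos_x h6).2
          rw [e1, hpT] at this; exact absurd this (by decide)
      · -- outside
        have hWτ : ¬ W (M.τ x) := by rw [← inv_μ L.WE, hm]; exact hWT
        have hc : col x := by
          rcases h2 with h2 | h2
          · rcases h2 with h2 | h2
            · exact h2.2
            · exact absurd h2.1 hWτ
          · exact absurd h2.1 hWτ
        refine Or.inl ⟨by rw [e1]; exact hWT, ?_⟩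
        exact (hI.nx2 x (hC.sub x h.1) hWτ (hC.sub _ h3) hWT).2 hc
    · rw [hb] at h4; exact absurd h4 (by decide)
  · exact next_easy L hC hI h hb (Or.inr (by unfold pos; rw [hF]; rfl)) (fun h4 => absurd h4 h3)

/-- the vertex of valence four -/
lemma next_B2 (L : M.Lev W S cE used) (hC : M.Comp W S W') (hI : M.Inv W col) {x : D}
    (h : M.Bd W' x) (h1 : M.lab x = .B2) (h2 : M.Up W cE col x) :
    M.Up W cE col (M.nxt W' x) := by
  have hb : (M.lab x).isB = true := by rw [h1]; rfl
  have h3l : M.lab (M.ν x) = .B3 := by rw [lab_ν, h1]; rfl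
  have h4l : M.lab (M.ν (M.ν x)) = .B2 := by rw [lab_ν, h3l]; rfl
  have h5l : M.lab (M.ν (M.ν (M.ν x))) = .B3 := by rw [lab_ν, h4l]; rfl
  have hm : M.μ x = M.ν (M.ν (M.ν x)) := μ_4 hb
  have h44 : M.ν (M.ν (M.ν (M.ν x))) = x := M.n4 x hb
  have hp3 : M.pos (M.ν x) = .t := by unfold pos; rw [h3l]; rfl
  have hp5 : M.pos (M.ν (M.ν (M.ν x))) = .t := by unfold pos; rw [h5l]; rfl
  have hn : M.Bd W' (M.nxt W' x) := nxt_bd hC.WE h
  rcases nxt_cases hC.WE h with ⟨h3, e⟩ | ⟨h3, h4, e⟩ | ⟨-, -, -, -, e⟩
  · rw [e] at hn ⊢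
    exact up_of_dep L hC hI hn (Or.inl hp3)
  · rw [e] at hn ⊢
    have e1 : M.τ (M.E (M.ν x)) = M.ν (M.ν x) := rfl
    rcases colours (cE := cE) L hC hI hn with h5 | h5 | h5 | h5
    · exact h5
    · exfalso
      rcases h2 with ⟨a1, a2⟩ | ⟨a1, a2⟩
      · have a1' : ¬ W (M.ν (M.ν (M.ν x))) := by rw [← hm, inv_μ L.WE]; exact a1
        rcases h5 with ⟨b1, b2⟩ | ⟨b1, b2⟩
        · rw [e1] at b1
          exact b2 ((hI.nx2 x (hC.sub x h.1) a1 (hC.sub _ h3) b1).2 a2)
        · -- `4` inside, `1` outside
          rw [e1] at b1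
          have := hI.h1 (M.ν (M.ν x)) h4l b1 (by rw [μ_ν]; exact hC.sub _ h3)
          exact a1' this.1
      · have a1' : W (M.ν (M.ν (M.ν x))) := by rw [← hm, inv_μ L.WE]; exact a1
        have hS1 : S (M.μ x) := by
          rw [inv_μ L.SE]
          rcases hC.bd h with h6 | h6
          · exact absurd a1 h6
          · exact h6
        have hc1 : cE (M.μ x) := by
          rw [inv_μ L.cEE]
          rcases a2 with a2 | a2 | a2
          · exfalso
            have : M.pos x = .r := by unfold pos; rw [h1]; rfl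
            rw [this] at a2; exact absurd a2.2 (by decide)
          · exfalso
            have : M.pos x = .r := by unfold pos; rw [h1]; rfl
            rw [this] at a2; exact absurd a2.2.1 (by decide)
          · exact a2.2.2
        rcases h5 with ⟨b1, b2⟩ | ⟨b1, b2⟩
        · rw [e1] at b1
          have := hI.h1 x h1 (hC.sub x h.1) (by rw [hm]; exact a1')
          exact b1 this.2
        · rw [e1] at b1
          have hc4 : ¬ cE (M.ν (M.ν x)) := by
            rcases b2 with b2 | b2 | b2
            · exfalso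
              have : M.pos (M.ν (M.ν x)) = .r := by unfold pos; rw [h4l]; rfl
              rw [e1, this] at b2; exact absurd b2.2 (by decide)
            · exfalso
              have : M.pos (M.ν (M.ν x)) = .r := by unfold pos; rw [h4l]; rfl
              rw [e1, this] at b2; exact absurd b2.2.1 (by decide)
            · exact b2.2.2
          have hn2 : ¬ S x := hC.nS x h.1
          have hn3 : ¬ S (M.ν x) := hC.nS _ h3
          have hnu : ¬ used x := by
            intro hu
            have m1 : M.μ (M.ν (M.ν x)) = M.ν x := μ_ν _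
            rcases L.usedB x h1 hu with a | a
            · rcases a with a | a | a | a
              · exact hn3 a.2.2.1
              · exact hn2 a.1
              · exact hc4 a.2.2.2
              · exact hn2 a.1
            · unfold Mpat at a
              rw [m1, h44] at a
              rcases a with a | a | a | a
              · exact hn3 a.1
              · exact hn2 a.2.2.1
              · exact hn3 a.1
              · rw [← hm] at a; exact a.2.2.2 hc1
          rcases (L.b1 x h1 (hC.sub x h.1) (hC.sub _ h3) b1 hnu hS1 hc1).1 with h6 | h6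
          · exact hn3 h6
          · exact hc4 h6.1
    · exfalso
      have := (pos_z h5.2.1).2
      rw [e1] at this; unfold pos at this; rw [h4l] at this; exact absurd this (by decide)
    · exfalso
      have := (pos_x h5.2.1).2
      rw [e1] at this; unfold pos at this; rw [h4l] at this; exact absurd this (by decide)
  · rw [e] at hn ⊢
    exact up_of_dep L hC hI hn (Or.inl hp5)

/-- **after an up edge comes an up edge** -/
theorem next_up (L : M.Lev W S cE used) (hC : M.Comp W S W') (hI : M.Inv W col) {x : D}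
    (h : M.Bd W' x) (h1 : M.Up W cE col x ∨ M.Nx W cE x) : M.Up W cE col (M.nxt W' x) := by
  have hcase : M.pos x = .h ∨ M.pos x = .x ∨ (M.lab x = .B2 ∧ M.Up W cE col x) := by
    rcases h1 with h1 | h1
    · rcases h1.upE hC hI h with h2 | h2 | h2
      · exact Or.inl h2.2
      · exact Or.inr (Or.inl h2.2)
      · exact Or.inr (Or.inr ⟨h2.2, h1⟩)
    · exact Or.inr (Or.inl (pos_x h1.2.1).1)
  rcases hcase with h2 | h2 | h2
  · rcases lab_h h2 with h3 | h3
    · refine next_easy L hC hI h (by rw [h3]; rfl) (Or.inl ?_) (fun _ => Or.inr ?_)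
      · unfold pos; rw [lab_ν, h3]; rfl
      · unfold pos; rw [lab_ν, lab_ν, h3]; rfl
    · refine next_easy L hC hI h (by rw [h3]; rfl) (Or.inr ?_) (fun _ => Or.inl ?_)
      · unfold pos; rw [lab_ν, h3]; rfl
      · unfold pos; rw [lab_ν, lab_ν, h3]; rfl
  · rcases lab_x h2 with h3 | h3
    · exact next_YG L hC hI h h3 h1
    · refine next_easy L hC hI h (by rw [h3]; rfl) (Or.inr ?_) (fun _ => Or.inl ?_)
      · unfold pos; rw [lab_ν, h3]; rfl
      · unfold pos; rw [lab_ν, lab_ν, h3]; rfl
  · exact next_B2 L hC hI h h2.1 h2.2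

/-- after a `zz` edge comes an up edge or an `xx` edge -/
theorem next_z (L : M.Lev W S cE used) (hC : M.Comp W S W') (hI : M.Inv W col) {x : D}
    (h : M.Bd W' x) (h1 : M.Nz W cE x) :
    M.Up W cE col (M.nxt W' x) ∨ M.Nx W cE (M.nxt W' x) := by
  have hn : M.Bd W' (M.nxt W' x) := nxt_bd hC.WE h
  rcases lab_z (pos_z h1.2.1).1 with h3 | h3
  · have hb : (M.lab x).isB = false := by rw [h3]; rfl
    rcases nxt_cases hC.WE h with ⟨-, e⟩ | ⟨-, -, e⟩ | ⟨-, -, -, h4, -⟩
    · rw [e] at hn ⊢
      have e1 : M.τ (M.E x) = M.ν x := rfl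
      have hp : M.pos (M.ν x) = .x := by unfold pos; rw [lab_ν, h3]; rfl
      have hl : M.lab (M.ν x) = .YG := by rw [lab_ν, h3]; rfl
      rcases colours (cE := cE) L hC hI hn with h5 | h5 | h5 | h5
      · exact Or.inl h5
      · exfalso
        have h6 := h5.dnE hC hI hn
        unfold DnE at h6
        rw [e1, hp, hl] at h6
        rcases h6 with h6 | h6 | h6
        · exact absurd h6.2 (by decide)
        · exact absurd h6.2 (by decide)
        · exact absurd h6.2 (by decide)
      · exfalso
        have := (pos_z h5.2.1).2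
        rw [e1, hp] at this; exact absurd this (by decide)
      · exact Or.inr h5
    · left
      rw [e] at hn ⊢
      refine up_of_dep L hC hI hn (Or.inr ⟨?_, ?_⟩)
      · unfold pos; rw [lab_ν, lab_ν, h3]; rfl
      · rw [lab_ν, lab_ν, h3]; decide
    · rw [hb] at h4; exact absurd h4 (by decide)
  · left
    refine next_easy L hC hI h (by rw [h3]; rfl) (Or.inl ?_) (fun _ => Or.inr ?_)
    · unfold pos; rw [lab_ν, h3]; rfl
    · unfold pos; rw [lab_ν, lab_ν, h3]; rfl

/-! ## Homogeneity -/

lemma up_not_Nx {x : D} (h1 : M.Up W cE col x) (h2 : M.Nx W cE x) : False := by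
  rcases h1 with h1 | ⟨-, h1⟩
  · exact h1.1 h2.1
  · rcases h1 with h1 | h1 | h1 <;> rw [h2.2.1] at h1 <;> exact absurd h1.1 (by decide)

lemma up_not_Nz {x : D} (h1 : M.Up W cE col x) (h2 : M.Nz W cE x) : False := by
  rcases h1 with h1 | ⟨-, h1⟩
  · exact h1.1 h2.1
  · rcases h1 with h1 | h1 | h1 <;> rw [h2.2.1] at h1 <;> exact absurd h1.1 (by decide)

lemma up_not_dn {x : D} (h1 : M.Up W cE col x) (h2 : M.Dn W cE col x) : False := by
  have hT : M.pos x = .h → M.ek x = .T → M.pos (M.τ x) ≠ .h := by
    intro h3 h4 h5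
    have := M.ekok x
    unfold pos at h3 h5
    rw [h4, h3, h5] at this
    exact absurd this (by decide)
  rcases h1 with h1 | ⟨h0, h1⟩
  · rcases h2 with h2 | h2
    · exact h2.2 h1.2
    · exact h1.1 h2.1
  · rcases h2 with h2 | ⟨-, h2⟩
    · exact h2.1 h0
    · rcases h1 with h1 | h1 | h1 <;> rcases h2 with h2 | h2 | h2
      · exact hT h1.2 h1.1 h2.2
      · rw [h2.1] at h1; exact absurd h1.1 (by decide)
      · rw [h2.1] at h1; exact absurd h1.1 (by decide)
      · rw [h2.1] at h1; exact absurd h1.1 (by decide)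
      · rw [h2.1] at h1; exact absurd h1.1 (by decide)
      · rw [h2.1] at h1; exact absurd h1.1 (by decide)
      · rw [h2.1] at h1; exact absurd h1.1 (by decide)
      · rw [h2.1] at h1; exact absurd h1.1 (by decide)
      · exact h2.2.2 h1.2.2

variable [Finite D]

/-- the colour `up` is constant along the boundary -/
theorem up_iff (L : M.Lev W S cE used) (hC : M.Comp W S W') (hI : M.Inv W col) {x : D}
    (h : M.Bd W' x) : M.Up W cE col (M.nxt W' x) ↔ M.Up W cE col x :=
  ⟨fun h1 => bd_inv hC.WE (U := M.Up W cE col) (fun _ hy h2 => next_up L hC hI hy (Or.inl h2)) h h1,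
    fun h1 => next_up L hC hI h (Or.inl h1)⟩

/-- **no neutral edges** -/
theorem no_Nx (L : M.Lev W S cE used) (hC : M.Comp W S W') (hI : M.Inv W col) {x : D}
    (h : M.Bd W' x) : ¬ M.Nx W cE x := fun h1 =>
  up_not_Nx ((up_iff L hC hI h).1 (next_up L hC hI h (Or.inr h1))) h1

theorem no_Nz (L : M.Lev W S cE used) (hC : M.Comp W S W') (hI : M.Inv W col) {x : D}
    (h : M.Bd W' x) : ¬ M.Nz W cE x := fun h1 => by
  rcases next_z L hC hI h h1 with h2 | h2
  · exact up_not_Nz ((up_iff L hC hI h).1 h2) h1
  · exact no_Nx L hC hI (nxt_bd hC.WE h) h2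

theorem up_or_dn (L : M.Lev W S cE used) (hC : M.Comp W S W') (hI : M.Inv W col) {x : D}
    (h : M.Bd W' x) : M.Up W cE col x ∨ M.Dn W cE col x := by
  rcases colours (cE := cE) L hC hI h with h2 | h2 | h2 | h2
  · exact Or.inl h2
  · exact Or.inr h2
  · exact absurd h2 (no_Nz L hC hI h)
  · exact absurd h2 (no_Nx L hC hI h)

end Pool.Agent.MP42.O3.BM
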