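import Pool.Agent.MP42.O3.Def

/-!
# The edge table (owner helper50)
-/

set_option autoImplicit false

namespace Pool.Agent.MP42.O3.BM

variable {D : Type*} {M : BM D} {W S cE used W' col : D → Prop}

/-- the face of `τ x` contains the corner `μ x` -/
lemma inv_μ {ψ : D → Prop} (hψ : ∀ x, ψ (M.E x) ↔ ψ x) (x : D) : ψ (M.μ x) ↔ ψ (M.τ x) := by
  rw [← hψ (M.μ x), E_μ]

lemma Esymm {ψ : D → Prop} (hψ : ∀ x, ψ (M.E x) ↔ ψ x) (x : D) : ψ (M.E.symm x) ↔ ψ x := by
  rw [← hψ (M.E.symm x), Equiv.apply_symm_apply]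

lemma ν_Esymm (x : D) : M.ν (M.E.symm x) = M.τ x := by
  unfold ν; rw [Equiv.apply_symm_apply]

/-- what is next to a missing component is reached or outside -/
lemma Comp.out (hC : M.Comp W S W') {x : D} (h : W' x) (h1 : W (M.τ x)) (h2 : ¬ W' (M.τ x)) :
    S (M.τ x) := by
  by_contra h3
  exact h2 (hC.cl x h h1 h3)

/-- the vertex of a wanted minus link is unused -/
lemma unused_m (L : M.Lev W S cE used) {u : D} (hb : (M.lab u).isB = false) (h1 : cE u)
    (h2 : ¬ S (M.ν u)) : ¬ used u := by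
  intro hu
  have h3 : M.ν (M.ν (M.ν u)) = u := M.n3 u hb
  rcases L.used3 u hb hu with ⟨w, hw, a1, a2, a3, a4⟩ | ⟨-, a, -⟩
  · rcases hw with rfl | rfl | rfl
    · exact h2 a3
    · exact h2 a1
    · rw [h3] at a4; exact a4 h1
  · exact h2 a

/-- the vertex of a wanted plus link is unused -/
lemma unused_p (L : M.Lev W S cE used) {u : D} (hb : (M.lab u).isB = false)
    (h1 : ¬ cE (M.ν u)) (h2 : ¬ S u) : ¬ used u := by
  intro hu
  have h3 : M.ν (M.ν (M.ν u)) = u := M.n3 u hb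
  rcases L.used3 u hb hu with ⟨w, hw, a1, a2, a3, a4⟩ | ⟨a, -, -⟩
  · rcases hw with rfl | rfl | rfl
    · exact h2 a1
    · exact h1 a2
    · rw [h3] at a3; exact h2 a3
  · exact h2 a

/-- A `K_y` with both flats not real: if two petals are in `W` then so is the third corner. -/
lemma ky_in (hWE : ∀ x, W (M.E x) ↔ W x) (hI : M.Inv W col) {u : D} (hu : M.lab u = .YG)
    (h1 : M.ek u ≠ .R) (h2 : M.ek (M.ν (M.ν u)) ≠ .R) (h3 : W u) (h4 : W (M.ν u)) :
    W (M.ν (M.ν u)) := by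
  by_contra h5
  have hb : (M.lab u).isB = false := by rw [hu]; rfl
  have hm : M.μ u = M.ν (M.ν u) := μ_3 hb
  have h6 : ¬ W (M.τ u) := by rw [← inv_μ hWE, hm]; exact h5
  have h7 := hI.nx2 u h3 h6 h4 h5
  have hl1 : M.lab (M.ν u) = .YF := by rw [lab_ν, hu]; rfl
  have hl2 : M.lab (M.ν (M.ν u)) = .YT := by rw [lab_ν, hl1]; rfl
  have e1 : M.τ (M.E (M.ν u)) = M.ν (M.ν u) := rfl
  have e2 : M.ek (M.E (M.ν u)) = M.ek (M.ν (M.ν u)) := by rw [← e1, M.ekτ]
  have hup : M.ek (M.ν (M.ν u)) ≠ .T ∧ M.ek (M.ν (M.ν u)) ≠ .b := by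
    have := M.ekok (M.ν (M.ν u))
    rw [hl2] at this
    constructor
    · intro h; rw [h] at this; revert this; simp [EK.ok, Lab.pos]
    · intro h; rw [h] at this; revert this; simp [EK.ok, Lab.pos]
  have hWE' : W (M.E (M.ν u)) := (hWE _).2 h4
  have hnt : ¬ W (M.τ (M.E (M.ν u))) := by rw [e1]; exact h5
  by_cases hc : col u
  · have h8 : col (M.E (M.ν u)) := h7.2 hc
    have h9 := hI.up _ hWE' hnt h8
    unfold UpE at h9
    rw [e2] at h9
    rcases h9 with ⟨h9, -⟩ | ⟨h9, -⟩ | ⟨h9, -⟩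
    · exact hup.1 h9
    · exact hup.2 h9
    · exact h2 h9
  · have h9 := hI.dn u h3 h6 hc
    unfold DnE at h9
    have hk : M.ek u ≠ .T ∧ M.ek u ≠ .a := by
      have := M.ekok u
      rw [hu] at this
      constructor
      · intro h; rw [h] at this; revert this; simp [EK.ok, Lab.pos]
      · intro h; rw [h] at this; revert this; simp [EK.ok, Lab.pos]
    rcases h9 with ⟨h9, -⟩ | ⟨h9, -⟩ | ⟨h9, -⟩
    · exact hk.1 h9
    · exact hk.2 h9
    · exact h1 h9

/-- kinds by the end -/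
lemma ek_r {x : D} (h : M.pos x = .r) : M.ek x = .R := by
  have h1 := M.ekok x
  unfold pos at h
  rw [h] at h1
  revert h1
  cases M.ek x <;> cases (M.lab (M.τ x)).pos <;> simp [EK.ok]

lemma ek_h {x : D} (h : M.pos x = .h) : M.ek x = .R ∨ (M.ek x = .T ∧ M.pos (M.τ x) = .t) := by
  have h1 := M.ekok x
  unfold pos at h ⊢
  rw [h] at h1
  revert h1
  cases M.ek x <;> cases (M.lab (M.τ x)).pos <;> simp [EK.ok]

lemma ek_z {x : D} (h : M.pos x = .z) : M.ek x = .R ∨ (M.ek x = .a ∧ M.pos (M.τ x) = .t) ∨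
    (M.ek x = .z ∧ M.pos (M.τ x) = .z) := by
  have h1 := M.ekok x
  unfold pos at h ⊢
  rw [h] at h1
  revert h1
  cases M.ek x <;> cases (M.lab (M.τ x)).pos <;> simp [EK.ok]

lemma ek_x {x : D} (h : M.pos x = .x) : M.ek x = .R ∨ (M.ek x = .b ∧ M.pos (M.τ x) = .t) ∨
    (M.ek x = .x ∧ M.pos (M.τ x) = .x) := by
  have h1 := M.ekok x
  unfold pos at h ⊢
  rw [h] at h1
  revert h1
  cases M.ek x <;> cases (M.lab (M.τ x)).pos <;> simp [EK.ok]

lemma ek_t {x : D} (h : M.pos x = .t) : M.ek x = .R ∨ M.ek x = .G ∨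
    (M.ek x = .T ∧ M.pos (M.τ x) = .h) ∨ (M.ek x = .a ∧ M.pos (M.τ x) = .z) ∨
    (M.ek x = .b ∧ M.pos (M.τ x) = .x) ∨ M.ek x = .P := by
  have h1 := M.ekok x
  unfold pos at h ⊢
  rw [h] at h1
  revert h1
  cases M.ek x <;> cases (M.lab (M.τ x)).pos <;> simp [EK.ok]

lemma τ_pos_a {x : D} (h : M.ek x = .a) (h1 : M.pos x ≠ .z) : M.pos (M.τ x) = .z := by
  have h2 := M.ekok x
  unfold pos at h1 ⊢
  rw [h] at h2
  revert h2 h1
  cases (M.lab x).pos <;> cases (M.lab (M.τ x)).pos <;> simp [EK.ok]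

lemma pos_b {x : D} (h : M.ek x = .b) (h1 : M.pos (M.τ x) ≠ .x) : M.pos x = .x := by
  have h2 := M.ekok x
  unfold pos at h1 ⊢
  rw [h] at h2
  revert h2 h1
  cases (M.lab x).pos <;> cases (M.lab (M.τ x)).pos <;> simp [EK.ok]

lemma Comp.τ_ne (hC : M.Comp W S W') {x : D} (h : W' x) (h1 : S (M.τ x)) : M.ek x ≠ .P := by
  intro h2
  rw [M.ekP x h2] at h1
  exact hC.nS x h h1

lemma lab_μ_B3 {x : D} (h : M.lab x = .B3) : M.lab (M.μ x) = .B2 := by
  have h1 := lab_ν (M := M) (M.μ x)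
  rw [ν_μ, h] at h1
  revert h1
  cases M.lab (M.μ x) <;> simp [Lab.nx]

lemma lab_of_ν_B3 {x : D} (h : M.lab (M.ν x) = .B3) : M.lab x = .B2 := by
  have h1 := lab_μ_B3 h
  rwa [μ_ν] at h1

lemma lab_B {x : D} (h : (M.lab x).isB = true) : M.lab x = .B2 ∨ M.lab x = .B3 := by
  revert h
  cases M.lab x <;> simp [Lab.isB]

/-- edge table, the other side in class `E`, without the exceptional `K_y` -/
lemma tabE0 (L : M.Lev W S cE used) (hC : M.Comp W S W') {x : D} (h : W' x) (h1 : S (M.τ x))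
    (h2 : cE (M.τ x)) (he : ¬ (M.lab (M.μ x) = .YG ∧ M.ek (M.ν x) ≠ .R ∧ M.ek (M.μ x) ≠ .R)) :
    M.ek x = .T ∨ (M.ek x = .R ∧ M.lab x = .B2) ∨ (M.ek x = .a ∧ M.pos (M.τ x) = .z) ∨
      M.ek x = .z := by
  have hS : S (M.μ x) := (inv_μ L.SE x).2 h1
  have hc : cE (M.μ x) := (inv_μ L.cEE x).2 h2
  have hn : ¬ S x := hC.nS x h
  have hW : W x := hC.sub x h
  have hP := hC.τ_ne h h1
  rcases hb : (M.lab x).isB with _ | _
  · have hbu : (M.lab (M.μ x)).isB = false := by rw [isB_μ, hb]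
    have hu : ¬ used (M.μ x) := unused_m L hbu hc (by rw [ν_μ]; exact hn)
    have h3 : ¬ M.mkl x := by
      intro h3
      apply hn
      have := L.lm (M.μ x) hbu hu hS hc (by rw [ν_μ]; exact hW) (by rw [ν_μ]; exact h3) (by
        rw [ν_μ]
        by_contra h4
        push Not at h4
        exact he h4)
      rwa [ν_μ] at this
    unfold mkl at h3
    rcases hk : M.ek x <;> rw [hk] at h3 <;> simp at h3
    · exact Or.inl rfl
    · exact Or.inr (Or.inr (Or.inl ⟨rfl, τ_pos_a hk h3⟩))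
    · exact Or.inr (Or.inr (Or.inr rfl))
    · exact absurd hk hP
  · rcases lab_B hb with h3 | h3
    · exact Or.inr (Or.inl ⟨ek_r (by unfold pos; rw [h3]; rfl), h3⟩)
    · have h4 := lab_μ_B3 h3
      have h5 : ¬ (M.ek x = .R ∨ M.ek x = .G ∨ M.ek x = .b) := by
        intro h5
        apply hn
        have := L.m9m (M.μ x) h4 hS hc (by rw [ν_μ]; exact hW) (by rw [ν_μ]; exact h5)
        rwa [ν_μ] at this
      rcases ek_t (M := M) (x := x) (by unfold pos; rw [h3]; rfl) with h6 | h6 | h6 | h6 | h6 | h6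
      · exact absurd (Or.inl h6) h5
      · exact absurd (Or.inr (Or.inl h6)) h5
      · exact Or.inl h6.1
      · exact Or.inr (Or.inr (Or.inl h6))
      · exact absurd (Or.inr (Or.inr h6.1)) h5
      · exact absurd h6 hP

/-- edge table, the other side in class `O`, without the exceptional `K_y` -/
lemma tabO0 (L : M.Lev W S cE used) (hC : M.Comp W S W') {x : D} (h : W' x) (h1 : S (M.τ x))
    (h2 : ¬ cE (M.τ x)) (he : ¬ (M.lab (M.E.symm x) = .YG ∧ M.ek (M.ν (M.τ x)) ≠ .R ∧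
      M.ek (M.E.symm x) ≠ .R)) :
    M.ek x = .T ∨ (M.ek x = .R ∧ M.lab (M.τ x) = .B2) ∨ (M.ek x = .b ∧ M.pos x = .x) ∨
      M.ek x = .x := by
  have hν : M.ν (M.E.symm x) = M.τ x := ν_Esymm x
  have hc' : W' (M.E.symm x) := (Esymm hC.WE x).2 h
  have hn : ¬ S (M.E.symm x) := hC.nS _ hc'
  have hW : W (M.E.symm x) := hC.sub _ hc'
  have hP := hC.τ_ne h h1
  have hkτ : M.ek (M.τ x) = M.ek x := M.ekτ x
  rcases hb : (M.lab (M.E.symm x)).isB with _ | _
  · have hu : ¬ used (M.E.symm x) := unused_p L hb (by rw [hν]; exact h2) hn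
    have h3 : ¬ M.pkl (M.τ x) := by
      intro h3
      apply hn
      exact L.lp (M.E.symm x) hb hu hW (by rw [hν]; exact h1) (by rw [hν]; exact h2)
        (by rw [hν]; exact h3) (by
        rw [hν]
        by_contra h4
        push Not at h4
        exact he h4)
    unfold pkl at h3
    rw [hkτ] at h3
    rcases hk : M.ek x <;> rw [hk] at h3 <;> simp at h3
    · exact Or.inl rfl
    · exact Or.inr (Or.inr (Or.inl ⟨rfl, pos_b hk h3⟩))
    · exact Or.inr (Or.inr (Or.inr rfl))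
    · exact absurd hk hP
  · have hb' : (M.lab (M.τ x)).isB = true := by rw [← hν, isB_ν, hb]
    rcases lab_B hb' with h3 | h3
    · refine Or.inr (Or.inl ⟨?_, h3⟩)
      rw [← hkτ]
      exact ek_r (by unfold pos; rw [h3]; rfl)
    · have h4 : M.lab (M.E.symm x) = .B2 := by
        apply lab_of_ν_B3; rw [hν]; exact h3
      have h5 : ¬ (M.ek (M.τ x) = .R ∨ M.ek (M.τ x) = .G ∨ M.ek (M.τ x) = .a) := by
        intro h5
        apply hn
        exact L.m9p (M.E.symm x) h4 hW (by rw [hν]; exact h1) (by rw [hν]; exact h2)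
          (by rw [hν]; exact h5)
      rcases ek_t (M := M) (x := M.τ x) (by unfold pos; rw [h3]; rfl) with h6 | h6 | h6 | h6 | h6 | h6
      · exact absurd (Or.inl h6) h5
      · exact absurd (Or.inr (Or.inl h6)) h5
      · rw [hkτ] at h6; exact Or.inl h6.1
      · exact absurd (Or.inr (Or.inr h6.1)) h5
      · rw [M.ττ, hkτ] at h6
        exact Or.inr (Or.inr (Or.inl h6))
      · rw [hkτ] at h6; exact absurd h6 hP

/-- what a used vertex of valence three looks like -/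
lemma used3' (L : M.Lev W S cE used) {u : D} (hb : (M.lab u).isB = false) (hu : used u) :
    (S u ∧ cE u ∧ S (M.ν u) ∧ ¬ cE (M.ν u)) ∨
    (S (M.ν u) ∧ cE (M.ν u) ∧ S (M.ν (M.ν u)) ∧ ¬ cE (M.ν (M.ν u))) ∨
    (S (M.ν (M.ν u)) ∧ cE (M.ν (M.ν u)) ∧ S u ∧ ¬ cE u) ∨
    (S u ∧ S (M.ν u) ∧ S (M.ν (M.ν u))) := by
  have h3 : M.ν (M.ν (M.ν u)) = u := M.n3 u hb
  rcases L.used3 u hb hu with ⟨w, hw, a⟩ | a
  · rcases hw with rfl | rfl | rfl
    · exact Or.inl a
    · exact Or.inr (Or.inl a)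
    · rw [h3] at a
      exact Or.inr (Or.inr (Or.inl a))
  · exact Or.inr (Or.inr (Or.inr a))

/-- the exceptional `K_y`, class `E` -/
lemma kyE (L : M.Lev W S cE used) (hC : M.Comp W S W') (hI : M.Inv W col) {x : D} (h : W' x)
    (h1 : S (M.τ x)) (h2 : cE (M.τ x)) (hl : M.lab (M.μ x) = .YG) (h3 : M.ek (M.ν x) ≠ .R)
    (h4 : M.ek (M.μ x) ≠ .R) : False := by
  have hx : M.lab x = .YF := by
    have := lab_ν (M := M) (M.μ x); rw [ν_μ, hl] at this; exact this
  have hb : (M.lab x).isB = false := by rw [hx]; rfl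
  have hm : M.μ x = M.ν (M.ν x) := μ_3 hb
  have hS : S (M.μ x) := (inv_μ L.SE x).2 h1
  have hc : cE (M.μ x) := (inv_μ L.cEE x).2 h2
  have hn : ¬ S x := hC.nS x h
  have hW : W x := hC.sub x h
  have hT : M.lab (M.ν x) = .YT := by rw [lab_ν, hx]; rfl
  have hWT : W (M.ν x) := by
    have := ky_in L.WE hI hl h4 (by rw [ν_μ]; exact h3) (L.SW _ hS) (by rw [ν_μ]; exact hW)
    rwa [ν_μ] at this
  have hpT : M.pos (M.ν x) = .z := by unfold pos; rw [hT]; rfl
  by_cases hST : S (M.ν x)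
  · by_cases hcT : cE (M.ν x)
    · apply hn
      refine L.ky1 x hx ?_ hW hST hcT (by rw [← hm]; exact hS)
      intro hu
      rcases used3' L hb hu with a | a | a | a
      · exact hn a.1
      · exact a.2.2.2 (by rw [← hm]; exact hc)
      · exact hn a.2.2.1
      · exact hn a.1
    · apply hn
      refine L.lp x hb (unused_p L hb hcT hn) hW hST hcT ?_ (Or.inl (by rw [hx]; decide))
      rcases ek_z hpT with h5 | h5 | h5
      · exact Or.inl h5
      · exact Or.inr (Or.inr (Or.inr (Or.inl h5.1)))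
      · exact Or.inr (Or.inr (Or.inl h5.1))
  · -- the third corner belongs to the component
    have hE : W' (M.E x) := (hC.WE x).2 h
    have hT' : W' (M.ν x) := hC.cl (M.E x) hE hWT hST
    have he : W' (M.E (M.ν x)) := (hC.WE _).2 hT'
    have e1 : M.τ (M.E (M.ν x)) = M.μ x := by rw [hm]; rfl
    have e2 : M.ek (M.E (M.ν x)) = M.ek (M.μ x) := by rw [← e1, M.ekτ]
    have hpx : M.pos (M.μ x) = .x := by unfold pos; rw [hl]; rfl
    have hpos : M.pos (M.E (M.ν x)) ≠ .r := by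
      intro h5
      have h6 := ek_r h5
      rw [e2] at h6
      exact h4 h6
    have h7 := tabE0 L hC he (by rw [e1]; exact hS) (by rw [e1]; exact hc) (by
      rintro ⟨h8, -⟩
      apply hpos
      have := lab_ν (M := M) (M.μ (M.E (M.ν x)))
      rw [ν_μ, h8] at this
      unfold pos; rw [this]; rfl)
    rw [e2] at h7
    rcases ek_x hpx with h5 | h5 | h5
    · exact h4 h5
    · rw [h5.1] at h7; simp at h7
    · rw [h5.1] at h7; simp at h7

/-- the exceptional `K_y`, class `O` -/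
lemma kyO (L : M.Lev W S cE used) (hC : M.Comp W S W') (hI : M.Inv W col) {c : D} (h : W' c)
    (h1 : S (M.ν c)) (h2 : ¬ cE (M.ν c)) (hl : M.lab c = .YG) (h3 : M.ek (M.ν (M.ν c)) ≠ .R)
    (h4 : M.ek c ≠ .R) : False := by
  have hF : M.lab (M.ν c) = .YF := by rw [lab_ν, hl]; rfl
  have hT : M.lab (M.ν (M.ν c)) = .YT := by rw [lab_ν, hF]; rfl
  have hb : (M.lab c).isB = false := by rw [hl]; rfl
  have hbF : (M.lab (M.ν c)).isB = false := by rw [hF]; rfl
  have hbT : (M.lab (M.ν (M.ν c))).isB = false := by rw [hT]; rfl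
  have h5 : M.ν (M.ν (M.ν c)) = c := M.n3 c hb
  have hm : M.μ c = M.ν (M.ν c) := μ_3 hb
  have hn : ¬ S c := hC.nS c h
  have hW : W c := hC.sub c h
  have hWT : W (M.ν (M.ν c)) := ky_in L.WE hI hl h4 h3 hW (L.SW _ h1)
  have hpT : M.pos (M.ν (M.ν c)) = .z := by unfold pos; rw [hT]; rfl
  have hpc : M.pos c = .x := by unfold pos; rw [hl]; rfl
  by_cases hST : S (M.ν (M.ν c))
  · by_cases hcT : cE (M.ν (M.ν c))
    · apply hn
      have := L.lm (M.ν (M.ν c)) hbT (unused_m L hbT hcT (by rw [h5]; exact hn)) hST hcT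
        (by rw [h5]; exact hW) (by
          rw [h5]
          rcases ek_x hpc with h6 | h6 | h6
          · exact Or.inl h6
          · exact Or.inr (Or.inr (Or.inr (Or.inl h6.1)))
          · exact Or.inr (Or.inr (Or.inl h6.1))) (Or.inl (by rw [hT]; decide))
      rwa [h5] at this
    · apply hn
      have := L.ky2 (M.ν c) hF (by
        intro hu
        rcases used3' L hbF hu with a | a | a | a
        · exact h2 a.2.1
        · exact hcT a.2.1
        · rw [h5] at a; exact hn a.1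
        · rw [h5] at a; exact hn a.2.2) h1 hST hcT (by rw [h5]; exact hW)
      rwa [h5] at this
  · have hT' : W' (M.τ c) := by
      refine hC.cl c h ?_ ?_
      · rw [← inv_μ L.WE, hm]; exact hWT
      · rw [← inv_μ L.SE, hm]; exact hST
    have hT'' : W' (M.ν (M.ν c)) := by rw [← hm, inv_μ hC.WE]; exact hT'
    have e1 : M.μ (M.ν (M.ν c)) = M.ν c := μ_ν _
    have h7 := tabO0 L hC hT'' (by rw [← inv_μ L.SE, e1]; exact h1)
      (by rw [← inv_μ L.cEE, e1]; exact h2) (by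
      rintro ⟨h8, -⟩
      have h9 := lab_ν (M := M) (M.E.symm (M.ν (M.ν c)))
      rw [ν_Esymm, h8] at h9
      have h10 : M.pos (M.τ (M.ν (M.ν c))) = .r := by unfold pos; rw [h9]; rfl
      have h11 := ek_r h10
      rw [M.ekτ] at h11
      exact h3 h11)
    rcases ek_z hpT with h8 | h8 | h8
    · exact h3 h8
    · rw [h8.1] at h7; simp at h7
    · rw [h8.1] at h7; simp at h7

/-- **edge table**, class `E` -/
lemma tabE (L : M.Lev W S cE used) (hC : M.Comp W S W') (hI : M.Inv W col) {x : D} (h : W' x)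
    (h1 : S (M.τ x)) (h2 : cE (M.τ x)) :
    M.ek x = .T ∨ (M.ek x = .R ∧ M.lab x = .B2) ∨ (M.ek x = .a ∧ M.pos (M.τ x) = .z) ∨
      M.ek x = .z := by
  by_cases he : M.lab (M.μ x) = .YG ∧ M.ek (M.ν x) ≠ .R ∧ M.ek (M.μ x) ≠ .R
  · exact (kyE L hC hI h h1 h2 he.1 he.2.1 he.2.2).elim
  · exact tabE0 L hC h h1 h2 he

/-- **edge table**, class `O` -/
lemma tabO (L : M.Lev W S cE used) (hC : M.Comp W S W') (hI : M.Inv W col) {x : D} (h : W' x)
    (h1 : S (M.τ x)) (h2 : ¬ cE (M.τ x)) :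
    M.ek x = .T ∨ (M.ek x = .R ∧ M.lab (M.τ x) = .B2) ∨ (M.ek x = .b ∧ M.pos x = .x) ∨
      M.ek x = .x := by
  by_cases he : M.lab (M.E.symm x) = .YG ∧ M.ek (M.ν (M.τ x)) ≠ .R ∧ M.ek (M.E.symm x) ≠ .R
  · have e1 : M.ν (M.E.symm x) = M.τ x := ν_Esymm x
    exact (kyO L hC hI ((Esymm hC.WE x).2 h) (by rw [e1]; exact h1) (by rw [e1]; exact h2) he.1
      (by rw [e1]; exact he.2.1) he.2.2).elim
  · exact tabO0 L hC h h1 h2 he

end Pool.Agent.MP42.O3.BM
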