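import Pool.Agent.MP42.O3.Dock
import Pool.Agent.MP42.Ret

/-!
# From units to composite edges (owner helper50)

`UM`: a map given by units.  The corners at the vertices of valence at least three and the
composite edges between them form a `BM`.
-/

set_option autoImplicit false
set_option linter.unusedSectionVars false

namespace Pool.Agent.MP42.O3

/-- the other end of a unit -/
def Pos.op : Pos → Pos
  | .r => .r | .t => .h | .h => .t | .z => .z | .x => .x

/-- the vertices of valence two -/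
def ok2 : Pos → Pos → Bool
  | .h, _ => true | _, .h => true
  | .r, _ => true | _, .r => true
  | .z, .z => true | .x, .x => true
  | _, _ => false

/-- the name of a corner at a vertex of valence three -/
def labOf : Pos → Pos → Pos → Lab
  | .t, .r, .r => .TX | .r, .r, .t => .TM | .r, .t, .r => .TZ
  | .t, .r, .h => .XU | .r, .h, .t => .XL | .h, .t, .r => .XA
  | .t, .h, .r => .ZA | .h, .r, .t => .ZL | .r, .t, .h => .ZU
  | .r, .z, .x => .YF | .z, .x, .r => .YT | .x, .r, .z => .YG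
  | .r, .z, .t => .Vb | .z, .t, .r => .Vc | .t, .r, .z => .Va
  | .r, .t, .x => .Wb | .t, .x, .r => .Wc | .x, .r, .t => .Wa
  | _, _, _ => .B2

/-- the vertices of valence three -/
def ok3 (p q s : Pos) : Bool := !(labOf p q s == .B2)

lemma labOf_pos : ∀ p q s : Pos, ok3 p q s = true → (labOf p q s).pos = p ∧
    (labOf p q s).isB = false ∧ labOf q s p = (labOf p q s).nx := by
  intro p q s; cases p <;> cases q <;> cases s <;> decide

/-- kind of a composite edge without real unit -/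
def base : Pos → Pos → EK
  | .t, .h => .T | .h, .t => .T
  | .t, .z => .a | .z, .t => .a
  | .t, .x => .b | .x, .t => .b
  | .z, .z => .z | .x, .x => .x
  | .t, .t => .G
  | _, _ => .R

/-- The map of the units.  `ps x`: the position of the unit `x` at its east end, `σ x`: direction of
a wall unit, `y x` the height of the east end. -/
structure UM (P : Type*) where
  E : Equiv.Perm P
  τ : P → P
  ps : P → Pos
  σ : P → Bool
  y : P → ℤ
  ττ : ∀ x, τ (τ x) = x
  ne : ∀ x, τ x ≠ x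
  un : ∀ x, ps (τ x) = (ps x).op
  v1 : ∀ x, τ (E x) = x → ps x = .h
  v2 : ∀ x, τ (E x) ≠ x → τ (E (τ (E x))) = x → ok2 (ps x) (ps (τ (E x))) = true
  v3 : ∀ x, τ (E x) ≠ x → τ (E (τ (E x))) ≠ x → τ (E (τ (E (τ (E x))))) = x →
    ok3 (ps x) (ps (τ (E x))) (ps (τ (E (τ (E x))))) = true
  v4 : ∀ x, τ (E x) ≠ x → τ (E (τ (E x))) ≠ x → τ (E (τ (E (τ (E x))))) ≠ x →
    τ (E (τ (E (τ (E (τ (E x))))))) = x ∧
    ((ps x = .r ∧ ps (τ (E x)) = .t) ∨ (ps x = .t ∧ ps (τ (E x)) = .r))
  w1 : ∀ x, ps x ≠ .r → σ (τ x) = !(σ x) ∧ y x = y (τ x) + (if σ x then 1 else -1)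
  w2 : ∀ x, y (τ (E x)) = y x
  w3 : ∀ x, ps x ≠ .r → ps (τ (E x)) ≠ .r → τ (E x) ≠ x → σ (τ (E x)) = !(σ x)
  w3' : ∀ x, ps x ≠ .r → ps (τ (E (τ (E x)))) ≠ .r → τ (E (τ (E x))) ≠ x →
    σ (τ (E (τ (E x)))) = !(σ x)

namespace UM

variable {P : Type*} (U : UM P)

/-- the next corner around the vertex -/
def n (x : P) : P := U.τ (U.E x)

/-- valence at least three -/
def Bg (x : P) : Prop := U.n x ≠ x ∧ U.n (U.n x) ≠ x

variable {U}

lemma n_inj {x y : P} (h : U.n x = U.n y) : x = y := by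
  have h1 := congrArg U.τ h
  unfold n at h1
  rw [U.ττ, U.ττ] at h1
  exact U.E.injective h1

lemma bg_n {x : P} : U.Bg (U.n x) ↔ U.Bg x := by
  constructor
  · rintro ⟨h1, h2⟩
    exact ⟨fun h => h1 (congrArg U.n h), fun h => h2 (congrArg U.n h)⟩
  · rintro ⟨h1, h2⟩
    exact ⟨fun h => h1 (n_inj h), fun h => h2 (n_inj h)⟩

/-- passing a vertex of valence at most two, seen from the other side -/
lemma back {x : P} (h : ¬ U.Bg x) : U.E (U.τ (U.E x)) = U.τ x := by
  by_cases h1 : U.n x = x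
  · have h2 : U.τ (U.E x) = x := h1
    rw [h2]
    rw [← U.ττ (U.E x), h2]
  · have h2 : U.n (U.n x) = x := by
      by_contra h2
      exact h ⟨h1, h2⟩
    have h3 := congrArg U.τ h2
    unfold n at h3
    rw [U.ττ] at h3
    exact h3

/-- the corners of valence at least three -/
abbrev D (U : UM P) : Type _ := {x : P // U.Bg x}

variable [Finite P]

/-- the next corner of valence at least three -/
noncomputable def E' (U : UM P) : Equiv.Perm U.D := ret U.E U.Bg

/-- rotation -/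
def ν' (U : UM P) (x : U.D) : U.D := ⟨U.n x.1, bg_n.2 x.2⟩

/-- the other side of the composite edge -/
noncomputable def τ' (U : UM P) (x : U.D) : U.D := U.ν' (U.E'.symm x)

/-- number of the inner vertices of the composite edge departing from the corner -/
noncomputable def len (U : UM P) (c : U.D) : ℕ := retN U.E U.Bg c.1

lemma E'_val (c : U.D) : (U.E' c).1 = (U.E ^ (U.len c + 1)) c.1 := by
  show retFun U.E U.Bg c.1 = _
  rw [retFun_eq]; rfl

lemma len_not {c : U.D} {j : ℕ} (h : j < U.len c) : ¬ U.Bg ((U.E ^ (j + 1)) c.1) := retN_not h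

/-- the composite edge from the other side -/
lemma walk_back {c : P} {n : ℕ} (h : ∀ j < n, ¬ U.Bg ((U.E ^ (j + 1)) c)) :
    ∀ i ≤ n, (U.E ^ i) (U.τ ((U.E ^ (n + 1)) c)) = U.τ ((U.E ^ (n + 1 - i)) c) := by
  intro i
  induction i with
  | zero => intro _; rfl
  | succ i ih =>
    intro hi
    rw [pow_succ']
    show U.E ((U.E ^ i) (U.τ ((U.E ^ (n + 1)) c))) = _
    rw [ih (by omega)]
    have h1 : n + 1 - i = (n - i - 1) + 1 + 1 := by omega
    have h2 : n + 1 - (i + 1) = (n - i - 1) + 1 := by omega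
    rw [h1, h2]
    have h3 := back (h (n - i - 1) (by omega))
    have h4 : (U.E ^ ((n - i - 1) + 1 + 1)) c = U.E ((U.E ^ ((n - i - 1) + 1)) c) := by
      rw [pow_succ' _ ((n - i - 1) + 1)]; rfl
    rw [h4, h3]

/-- the corner before the end of the composite edge leads back -/
lemma E'_back (c : U.D) (z : U.D) (hz : U.ν' z = U.E' c) : U.E' z = U.ν' c := by
  have h1 : U.n z.1 = (U.E' c).1 := congrArg Subtype.val hz
  have h2 : U.E z.1 = U.τ ((U.E ^ (U.len c + 1)) c.1) := by
    rw [← E'_val, ← h1]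
    exact (U.ττ _).symm
  have h3 := walk_back (U := U) (c := c.1) (n := U.len c) (fun j hj => len_not hj)
  have hp : ∀ i ≤ U.len c, (U.E ^ (i + 1)) z.1 = U.τ ((U.E ^ (U.len c + 1 - i)) c.1) := by
    intro i hi
    rw [pow_succ]
    show (U.E ^ i) (U.E z.1) = _
    rw [h2, h3 i hi]
  apply Subtype.ext
  show retFun U.E U.Bg z.1 = U.n c.1
  rw [retFun_eq_of (j := U.len c)]
  · rw [hp _ le_rfl]
    have : U.len c + 1 - U.len c = 1 := by omega
    rw [this, pow_one]; rfl
  · rw [hp _ le_rfl]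
    have : U.len c + 1 - U.len c = 1 := by omega
    rw [this, pow_one]
    exact bg_n.2 c.2
  · intro i hi
    rw [hp i hi.le]
    have h4 : U.len c + 1 - i = (U.len c - i - 1) + 1 + 1 := by omega
    have h5 : (U.E ^ ((U.len c - i - 1) + 1 + 1)) c.1 =
        U.E ((U.E ^ ((U.len c - i - 1) + 1)) c.1) := by
      rw [pow_succ' _ ((U.len c - i - 1) + 1)]; rfl
    rw [h4, h5]
    intro h6
    exact len_not (c := c) (j := U.len c - i - 1) (by omega) (bg_n.1 h6)

lemma n4 {x : P} (h : U.Bg x) : U.n (U.n (U.n x)) = x ∨ U.n (U.n (U.n (U.n x))) = x := by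
  by_cases h3 : U.n (U.n (U.n x)) = x
  · exact Or.inl h3
  · exact Or.inr (U.v4 x h.1 h.2 h3).1

lemma ν'_surj (x : U.D) : ∃ z, U.ν' z = x := by
  rcases n4 x.2 with h | h
  · exact ⟨U.ν' (U.ν' x), Subtype.ext h⟩
  · exact ⟨U.ν' (U.ν' (U.ν' x)), Subtype.ext h⟩

lemma τ'_τ' (x : U.D) : U.τ' (U.τ' x) = x := by
  obtain ⟨z, hz⟩ := ν'_surj x
  have h1 := E'_back (U.E'.symm x) z (by rw [hz, Equiv.apply_symm_apply])
  have h2 : U.τ' x = U.E' z := h1.symm
  rw [h2]
  unfold τ'
  rw [Equiv.symm_apply_apply, hz]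

lemma τ'_E' (x : U.D) : U.τ' (U.E' x) = U.ν' x := by
  unfold τ'; rw [Equiv.symm_apply_apply]

/-! ## Kinds -/

/-- the composite edge that departs from the corner contains a real unit -/
def HR (U : UM P) (c : U.D) : Prop := ∃ i ≤ U.len c, U.ps ((U.E ^ (i + 1)) c.1) = .r

lemma op_r {p : Pos} : p.op = .r ↔ p = .r := by cases p <;> simp [Pos.op]

lemma len_back (c z : U.D) (hz : U.ν' z = U.E' c) : U.len z = U.len c := by
  have h1 : U.n z.1 = (U.E' c).1 := congrArg Subtype.val hz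
  have h2 : U.E z.1 = U.τ ((U.E ^ (U.len c + 1)) c.1) := by
    rw [← E'_val, ← h1]
    exact (U.ττ _).symm
  have h3 := walk_back (U := U) (c := c.1) (n := U.len c) (fun j hj => len_not hj)
  have hp : ∀ i ≤ U.len c, (U.E ^ (i + 1)) z.1 = U.τ ((U.E ^ (U.len c + 1 - i)) c.1) := by
    intro i hi
    rw [pow_succ]
    show (U.E ^ i) (U.E z.1) = _
    rw [h2, h3 i hi]
  have hbig : U.Bg ((U.E ^ (U.len c + 1)) z.1) := by
    rw [hp _ le_rfl]
    have : U.len c + 1 - U.len c = 1 := by omega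
    rw [this, pow_one]
    exact bg_n.2 c.2
  have hnb : ∀ i < U.len c, ¬ U.Bg ((U.E ^ (i + 1)) z.1) := by
    intro i hi
    rw [hp i hi.le]
    have h4 : U.len c + 1 - i = (U.len c - i - 1) + 1 + 1 := by omega
    have h5 : (U.E ^ ((U.len c - i - 1) + 1 + 1)) c.1 =
        U.E ((U.E ^ ((U.len c - i - 1) + 1)) c.1) := by
      rw [pow_succ' _ ((U.len c - i - 1) + 1)]; rfl
    rw [h4, h5]
    intro h6
    exact len_not (c := c) (j := U.len c - i - 1) (by omega) (bg_n.1 h6)
  rcases lt_trichotomy (U.len z) (U.len c) with h | h | h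
  · exfalso
    have : U.Bg ((U.E ^ (U.len z + 1)) z.1) := by
      rw [← E'_val]; exact (U.E' z).2
    exact hnb _ h this
  · exact h
  · exact absurd hbig (len_not h)

lemma HR_back {c z : U.D} (hz : U.ν' z = U.E' c) (h : U.HR c) : U.HR z := by
  obtain ⟨i, hi, h1⟩ := h
  have h0 : U.n z.1 = (U.E' c).1 := congrArg Subtype.val hz
  have h2 : U.E z.1 = U.τ ((U.E ^ (U.len c + 1)) c.1) := by
    rw [← E'_val, ← h0]
    exact (U.ττ _).symm
  have h3 := walk_back (U := U) (c := c.1) (n := U.len c) (fun j hj => len_not hj)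
  refine ⟨U.len c - i, by rw [len_back c z hz]; omega, ?_⟩
  rw [pow_succ]
  show U.ps ((U.E ^ (U.len c - i)) (U.E z.1)) = .r
  rw [h2, h3 _ (by omega), U.un]
  have : U.len c + 1 - (U.len c - i) = i + 1 := by omega
  rw [this, h1]; rfl

open Classical in
/-- the kind of the composite edge arriving at the corner -/
noncomputable def ek' (U : UM P) (x : U.D) : EK :=
  if U.HR (U.E'.symm x) then .R else
    if U.τ' x = x then .P else base (U.ps (U.τ' x).1) (U.ps x.1)

lemma base_symm (p q : Pos) : base p q = base q p := by cases p <;> cases q <;> rfl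

lemma ek'_τ' (x : U.D) : U.ek' (U.τ' x) = U.ek' x := by
  obtain ⟨z, hz⟩ := ν'_surj x
  have h1 := E'_back (U.E'.symm x) z (by rw [hz, Equiv.apply_symm_apply])
  have h2 : U.E'.symm (U.τ' x) = z := by
    have : U.τ' x = U.E' z := h1.symm
    rw [this, Equiv.symm_apply_apply]
  have h3 : U.HR z ↔ U.HR (U.E'.symm x) := by
    constructor
    · intro h
      refine HR_back (c := z) (z := U.E'.symm x) ?_ h
      rw [h1]
    · intro h
      refine HR_back (c := U.E'.symm x) (z := z) ?_ h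
      rw [hz, Equiv.apply_symm_apply]
  unfold ek'
  rw [h2, τ'_τ']
  by_cases h4 : U.HR z
  · rw [if_pos h4, if_pos (h3.1 h4)]
  · rw [if_neg h4, if_neg (fun h => h4 (h3.2 h))]
    by_cases h5 : U.τ' x = x
    · rw [if_pos h5, if_pos h5.symm]
    · rw [if_neg h5, if_neg (fun h => h5 h.symm), base_symm]

/-- states on the way -/
def st : Pos → Pos → Bool
  | .t, .r => false | .t, _ => true
  | .h, .h => true
  | .z, .z => true | .z, .h => true
  | .x, .x => true | .x, .h => true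
  | _, _ => false

/-- the automaton -/
lemma auto (c : U.D) (h : ¬ U.HR c) : ∀ i ≤ U.len c,
    st (U.ps (U.n c.1)) (U.ps (U.τ ((U.E ^ (i + 1)) c.1))) = true := by
  have hr : ∀ i ≤ U.len c, U.ps ((U.E ^ (i + 1)) c.1) ≠ .r := fun i hi h1 => h ⟨i, hi, h1⟩
  intro i
  induction i with
  | zero =>
    intro h0
    have h1 : (U.E ^ (0 + 1)) c.1 = U.E c.1 := by rw [zero_add, pow_one]
    rw [h1]
    have h2 : U.ps (U.n c.1) ≠ .r := by
      intro h3
      apply hr 0 h0
      rw [h1]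
      have h4 : U.ps (U.τ (U.E c.1)) = .r := h3
      rw [U.un] at h4
      exact op_r.1 h4
    show st (U.ps (U.n c.1)) (U.ps (U.n c.1)) = true
    revert h2
    cases U.ps (U.n c.1) <;> simp [st]
  | succ i ih =>
    intro hi
    have h1 := ih (by omega)
    have h2 := hr i (by omega)
    have h3 := hr (i + 1) hi
    have h4 := len_not (c := c) (j := i) (by omega)
    set u := (U.E ^ (i + 1)) c.1 with hu
    have h5 : (U.E ^ (i + 1 + 1)) c.1 = U.E u := by rw [pow_succ' _ (i + 1)]; rfl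
    rw [h5] at h3 ⊢
    rw [U.un] at h1
    have h6 : U.ps (U.τ (U.E u)) ≠ .r := by
      intro h6; rw [U.un] at h6; exact h3 (op_r.1 h6)
    by_cases h7 : U.n u = u
    · have h8 := U.v1 u h7
      have h9 : U.τ (U.E u) = u := h7
      rw [h9, h8]
      rw [h8] at h1
      revert h1
      cases U.ps (U.n c.1) <;> simp [st, Pos.op]
    · have h8 : U.n (U.n u) = u := by
        by_contra h8; exact h4 ⟨h7, h8⟩
      have h9 := U.v2 u h7 h8
      revert h1 h2 h6 h9
      cases U.ps (U.n c.1) <;> cases U.ps u <;> cases U.ps (U.τ (U.E u)) <;>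
        simp [st, Pos.op, ok2]

/-- the ends of a composite edge without real unit -/
lemma ends (c : U.D) (h : ¬ U.HR c) :
    (base (U.ps (U.n c.1)) (U.ps (U.E' c).1)).ok (U.ps (U.E' c).1) (U.ps (U.n c.1)) = true ∧
      (U.ps (U.E' c).1 = U.ps (U.n c.1) → U.ps (U.n c.1) = .t ∨ U.ps (U.n c.1) = .z ∨
        U.ps (U.n c.1) = .x) := by
  have h1 := auto c h (U.len c) le_rfl
  rw [← E'_val, U.un] at h1
  revert h1
  cases U.ps (U.n c.1) <;> cases U.ps (U.E' c).1 <;> simp [st, Pos.op, base, EK.ok]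

lemma base_P (p q : Pos) : base p q ≠ .P := by cases p <;> cases q <;> decide

/-- an edge with one side ends in a pole -/
lemma pole {c : U.D} (h : ¬ U.HR c) (h1 : U.ν' c = U.E' c) : U.ps (U.n c.1) = .t := by
  have h0 : U.n c.1 = (U.E' c).1 := congrArg Subtype.val h1
  have h2 : U.E c.1 = U.τ ((U.E ^ (U.len c + 1)) c.1) := by
    rw [← E'_val, ← h0]
    exact (U.ττ _).symm
  have h3 := walk_back (U := U) (c := c.1) (n := U.len c) (fun j hj => len_not hj)
  have hp : ∀ i ≤ U.len c, (U.E ^ (i + 1)) c.1 = U.τ ((U.E ^ (U.len c + 1 - i)) c.1) := by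
    intro i hi
    rw [pow_succ]
    show (U.E ^ i) (U.E c.1) = _
    rw [h2, h3 i hi]
  rcases Nat.even_or_odd' (U.len c) with ⟨j, hj | hj⟩
  · exfalso
    have h4 := hp j (by omega)
    have h5 : U.len c + 1 - j = j + 1 := by omega
    rw [h5] at h4
    exact U.ne _ h4.symm
  · have h4 := hp (j + 1) (by omega)
    have h5 : U.len c + 1 - (j + 1) = j + 1 := by omega
    rw [h5] at h4
    have h6 : (U.E ^ (j + 1 + 1)) c.1 = U.E ((U.E ^ (j + 1)) c.1) := by
      rw [pow_succ' _ (j + 1)]; rfl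
    rw [h6] at h4
    have h7 := U.v1 ((U.E ^ (j + 1)) c.1) (by rw [h4, U.ττ])
    have h8 := auto c h j (by omega)
    rw [U.un, h7] at h8
    revert h8
    cases U.ps (U.n c.1) <;> simp [st, Pos.op]

open Classical in
/-- the name of the corner -/
noncomputable def lab' (U : UM P) (x : U.D) : Lab :=
  if U.n (U.n (U.n x.1)) = x.1 then labOf (U.ps x.1) (U.ps (U.n x.1)) (U.ps (U.n (U.n x.1)))
  else if U.ps x.1 = .r then .B2 else .B3

lemma lab'_3 {x : U.D} (h : U.n (U.n (U.n x.1)) = x.1) :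
    U.lab' x = labOf (U.ps x.1) (U.ps (U.n x.1)) (U.ps (U.n (U.n x.1))) ∧
    ok3 (U.ps x.1) (U.ps (U.n x.1)) (U.ps (U.n (U.n x.1))) = true :=
  ⟨by unfold lab'; rw [if_pos h], U.v3 x.1 x.2.1 x.2.2 h⟩

lemma lab'_4 {x : U.D} (h : U.n (U.n (U.n x.1)) ≠ x.1) :
    U.n (U.n (U.n (U.n x.1))) = x.1 ∧
    ((U.ps x.1 = .r ∧ U.ps (U.n x.1) = .t ∧ U.lab' x = .B2) ∨
      (U.ps x.1 = .t ∧ U.ps (U.n x.1) = .r ∧ U.lab' x = .B3)) := by
  obtain ⟨h1, h2⟩ := U.v4 x.1 x.2.1 x.2.2 h
  refine ⟨h1, ?_⟩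
  unfold lab'
  rw [if_neg h]
  rcases h2 with ⟨a, b⟩ | ⟨a, b⟩
  · left; exact ⟨a, b, by rw [if_pos a]⟩
  · right; exact ⟨a, b, by rw [if_neg (by rw [a]; decide)]⟩

lemma lab'_pos (x : U.D) : (U.lab' x).pos = U.ps x.1 := by
  by_cases h : U.n (U.n (U.n x.1)) = x.1
  · obtain ⟨h1, h2⟩ := lab'_3 h
    rw [h1, (labOf_pos _ _ _ h2).1]
  · obtain ⟨-, h1 | h1⟩ := lab'_4 h
    · rw [h1.2.2, h1.1]; rfl
    · rw [h1.2.2, h1.1]; rfl

/-- **the big map** -/
noncomputable def toBM (U : UM P) : BM U.D where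
  E := U.E'
  τ := U.τ'
  lab := U.lab'
  ek := U.ek'
  ττ := τ'_τ'
  lab_nu x := by
    rw [τ'_E']
    by_cases h : U.n (U.n (U.n x.1)) = x.1
    · obtain ⟨h1, h2⟩ := lab'_3 h
      have h3 : U.n (U.n (U.n (U.ν' x).1)) = (U.ν' x).1 := congrArg U.n h
      obtain ⟨h4, -⟩ := lab'_3 h3
      have h5 : U.ps (U.n (U.n (U.ν' x).1)) = U.ps x.1 := congrArg U.ps h
      rw [h4, h5, h1, ← (labOf_pos _ _ _ h2).2.2]
      rfl
    · have h3 : U.n (U.n (U.n (U.ν' x).1)) ≠ (U.ν' x).1 := fun h3 => h (n_inj h3)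
      obtain ⟨-, h1⟩ := lab'_4 h
      obtain ⟨-, h2⟩ := lab'_4 h3
      have e : U.ps (U.ν' x).1 = U.ps (U.n x.1) := rfl
      rcases h1 with h1 | h1 <;> rcases h2 with h2 | h2
      · rw [e, h1.2.1] at h2; exact absurd h2.1 (by decide)
      · rw [h2.2.2, h1.2.2]; rfl
      · rw [h2.2.2, h1.2.2]; rfl
      · rw [e, h1.2.1] at h2; exact absurd h2.1 (by decide)
  n3 x h := by
    rw [τ'_E', τ'_E', τ'_E']
    by_cases h1 : U.n (U.n (U.n x.1)) = x.1
    · exact Subtype.ext h1
    · exfalso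
      obtain ⟨-, h2 | h2⟩ := lab'_4 h1 <;> rw [h2.2.2] at h <;> exact absurd h (by decide)
  n4 x h := by
    rw [τ'_E', τ'_E', τ'_E', τ'_E']
    by_cases h1 : U.n (U.n (U.n x.1)) = x.1
    · exfalso
      obtain ⟨h2, h3⟩ := lab'_3 h1
      rw [h2, (labOf_pos _ _ _ h3).2.1] at h
      exact absurd h (by decide)
    · exact Subtype.ext (lab'_4 h1).1
  ekτ := ek'_τ'
  ekok x := by
    rw [lab'_pos, lab'_pos]
    have e1 : (U.τ' x).1 = U.n (U.E'.symm x).1 := rfl
    have e2 : U.E' (U.E'.symm x) = x := Equiv.apply_symm_apply _ _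
    unfold ek'
    by_cases h : U.HR (U.E'.symm x)
    · rw [if_pos h]; rfl
    · rw [if_neg h]
      by_cases h1 : U.τ' x = x
      · rw [if_pos h1, h1]
        have h2 := pole h (by rw [e2]; exact h1)
        rw [← e1, h1] at h2
        rw [h2]; rfl
      · rw [if_neg h1]
        have h2 := (ends _ h).1
        rw [e2, ← e1] at h2
        exact h2
  ekP x h := by
    unfold ek' at h
    by_cases h1 : U.HR (U.E'.symm x)
    · rw [if_pos h1] at h; exact absurd h (by decide)
    · rw [if_neg h1] at h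
      by_cases h2 : U.τ' x = x
      · exact h2
      · rw [if_neg h2] at h; exact absurd h (base_P _ _)

/-! ## The rank -/

lemma ek'_T {x : U.D} (h : U.ek' x ≠ .R) : ¬ U.HR (U.E'.symm x) := by
  intro h1; apply h; unfold ek'; rw [if_pos h1]

/-- all the states on the way are not `t` after a step that is not `t` -/
lemma no_pole {c : U.D} (h : ¬ U.HR c)
    (h1 : (U.ps (U.n c.1) = .t ∧ U.ps (U.E' c).1 = .h) ∨
      (U.ps (U.n c.1) = .t ∧ U.ps (U.E' c).1 = .x) ∨ U.ps (U.n c.1) ≠ .t) :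
    ∀ i < U.len c, U.n ((U.E ^ (i + 1)) c.1) ≠ (U.E ^ (i + 1)) c.1 := by
  intro i hi hp
  have h7 := U.v1 ((U.E ^ (i + 1)) c.1) hp
  -- after the pole all the states are `h`
  have hr : ∀ i ≤ U.len c, U.ps ((U.E ^ (i + 1)) c.1) ≠ .r := fun i hi h1 => h ⟨i, hi, h1⟩
  have h8 := auto c h i hi.le
  rw [U.un, h7] at h8
  have h9 : U.ps (U.n c.1) = .t := by
    revert h8
    cases U.ps (U.n c.1) <;> simp [st, Pos.op]
  have key : ∀ j, i + 1 ≤ j → j ≤ U.len c → U.ps ((U.E ^ (j + 1)) c.1) = .t := by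
    intro j hj
    induction j, hj using Nat.le_induction with
    | base =>
      intro _
      have h10 : (U.E ^ (i + 1 + 1)) c.1 = U.τ ((U.E ^ (i + 1)) c.1) := by
        have : (U.E ^ (i + 1 + 1)) c.1 = U.E ((U.E ^ (i + 1)) c.1) := by
          rw [pow_succ' _ (i + 1)]; rfl
        rw [this]
        have h11 := congrArg U.τ hp
        unfold n at h11
        rw [U.ττ] at h11
        exact h11
      rw [h10, U.un, h7]; rfl
    | succ j hj ih =>
      intro hj'
      have h1 := ih (by omega)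
      have h2 := len_not (c := c) (j := j) (by omega)
      set u := (U.E ^ (j + 1)) c.1 with hu
      have h5 : (U.E ^ (j + 1 + 1)) c.1 = U.E u := by rw [pow_succ' _ (j + 1)]; rfl
      have h3 := hr (j + 1) (by omega)
      rw [h5] at h3 ⊢
      by_cases h7 : U.n u = u
      · have h8 := U.v1 u h7
        rw [h1] at h8; exact absurd h8 (by decide)
      · have h8 : U.n (U.n u) = u := by
          by_contra h8; exact h2 ⟨h7, h8⟩
        have h9 := U.v2 u h7 h8
        rw [h1] at h9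
        have h6 : U.ps (U.τ (U.E u)) = (U.ps (U.E u)).op := U.un _
        rw [h6] at h9
        revert h9 h3
        cases U.ps (U.E u) <;> simp [ok2, Pos.op]
  have h10 := key (U.len c) (by omega) le_rfl
  rw [← E'_val] at h10
  rcases h1 with h1 | h1 | h1
  · rw [h10] at h1; exact absurd h1.2 (by decide)
  · rw [h10] at h1; exact absurd h1.2 (by decide)
  · exact h1 h9

/-- direction and height along a composite edge without real unit and pole -/
lemma line {c : U.D} (h : ¬ U.HR c)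
    (h1 : ∀ i < U.len c, U.n ((U.E ^ (i + 1)) c.1) ≠ (U.E ^ (i + 1)) c.1) :
    U.σ (U.E' c).1 = U.σ (U.E c.1) ∧
    U.y (U.E' c).1 = U.y c.1 + (if U.σ (U.E c.1) then ((U.len c : ℤ) + 1) else
      -((U.len c : ℤ) + 1)) := by
  have hr : ∀ i ≤ U.len c, U.ps ((U.E ^ (i + 1)) c.1) ≠ .r := fun i hi h1 => h ⟨i, hi, h1⟩
  have key : ∀ i ≤ U.len c, U.σ ((U.E ^ (i + 1)) c.1) = U.σ (U.E c.1) ∧
      U.y ((U.E ^ (i + 1)) c.1) = U.y c.1 + (if U.σ (U.E c.1) then ((i : ℤ) + 1) else
        -((i : ℤ) + 1)) := by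
    intro i
    induction i with
    | zero =>
      intro h0
      have h2 : (U.E ^ (0 + 1)) c.1 = U.E c.1 := by rw [zero_add, pow_one]
      have h3 := hr 0 h0
      rw [h2] at h3 ⊢
      refine ⟨rfl, ?_⟩
      have h4 := (U.w1 _ h3).2
      have h5 : U.y (U.τ (U.E c.1)) = U.y c.1 := U.w2 _
      rw [h4, h5]
      split_ifs <;> simp
    | succ i ih =>
      intro hi
      obtain ⟨a1, a2⟩ := ih (by omega)
      have h3 := hr i (by omega)
      have h4 := hr (i + 1) hi
      have h6 := h1 i (by omega)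
      set u := (U.E ^ (i + 1)) c.1 with hu
      have h5 : (U.E ^ (i + 1 + 1)) c.1 = U.E u := by rw [pow_succ' _ (i + 1)]; rfl
      rw [h5] at h4 ⊢
      have h7 : U.ps (U.τ (U.E u)) ≠ .r := by
        intro h7; rw [U.un] at h7; exact h4 (op_r.1 h7)
      have h8 := U.w3 u h3 h7 h6
      have h9 := U.w1 _ h4
      have h10 : U.y (U.τ (U.E u)) = U.y u := U.w2 _
      have h11 : U.σ (U.E u) = U.σ u := by
        have := h9.1
        rw [h8] at this
        exact (Bool.not_inj this).symm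
      refine ⟨by rw [h11, a1], ?_⟩
      rw [h9.2, h10, a2, h11, a1]
      split_ifs <;> push_cast <;> ring
  have := key (U.len c) le_rfl
  rw [← E'_val] at this
  exact this

end UM

end Pool.Agent.MP42.O3
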